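import Mathlib
import Pool.Agent.Lib_helper21.TS.Defs
import Pool.Agent.ACC.Defs

/-!
# Machines with random access to the input graph, to a work memory whose registers have prices, and
with a stack that is free and unlimited
-/

set_option autoImplicit false

namespace Pool.Agent.ACS

open Pool.Agent.TS
open Pool.Agent.ACC (write)

/-- A nondeterministic, nonuniform machine with random access to a graph on `Fin n`, with control
states in `Q`, with one register, with content in `Γ`, for every member of `A`, and with a stack of
letters from `Λ` (an arbitrary, possibly infinite alphabet). After `i` steps, in the state `q`, it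
can push a letter `a` and go to the state `q'` for every `(a, q')` in `push i q`, and it can pop the
top letter `a` and go to a state in `pop i q a`, any number of times. A step: if after `i` steps the
machine is in the state `q`, it reads the register `rd i q` (or none); `γ` being the content read, it
asks the question `ask i q γ` about the graph; `a` being the answer, it chooses a member `(q', w)` of
`next i q γ a`, goes to the state `q'` and, if `w = some (x, v)`, writes `v` into the register `x`. -/
structure Machine (n : ℕ) (Q A Γ Λ : Type) where
  start : Set Q
  init : A → Γ
  push : ℕ → Q → Set (Λ × Q)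
  pop : ℕ → Q → Λ → Set Q
  rd : ℕ → Q → Option A
  ask : ℕ → Q → Option Γ → Query n
  next : ℕ → Q → Option Γ → Option (Fin n) → Set (Q × Option (A × Γ))
  acc : Set Q

variable {n : ℕ} {Q A Γ Λ : Type}

/-- One stack operation of the machine after `i` steps: the state and the stack before and after. -/
inductive Machine.Move (M : Machine n Q A Γ Λ) (i : ℕ) : Q × List Λ → Q × List Λ → Prop
  | push {q q' : Q} {a : Λ} {s : List Λ} (h : (a, q') ∈ M.push i q) : M.Move i (q, s) (q', a :: s)
  | pop {q q' : Q} {a : Λ} {s : List Λ} (h : q' ∈ M.pop i q a) : M.Move i (q, a :: s) (q', s)

/-- A computation of `t` steps on the graph `G`: `q i` is the state after `i` steps and `s i` the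
stack; from these the machine goes by stack operations to the state `p i` and the stack
`s (i + 1)`; then it makes the step number `i` (if `i < t`), with the contents `c i` of the registers
and the write `w i`. The stack is empty at first. -/
def Machine.IsComputation (M : Machine n Q A Γ Λ) (G : SimpleGraph (Fin n)) (t : ℕ) (q p : ℕ → Q)
    (s : ℕ → List Λ) (c : ℕ → A → Γ) (w : ℕ → Option (A × Γ)) : Prop :=
  q 0 ∈ M.start ∧ s 0 = [] ∧ c 0 = M.init ∧
    (∀ i ≤ t, Relation.ReflTransGen (M.Move i) (q i, s i) (p i, s (i + 1))) ∧
    ∀ i < t, (q (i + 1), w i) ∈ M.next i (p i) ((M.rd i (p i)).map (c i))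
      (answer G (M.ask i (p i) ((M.rd i (p i)).map (c i)))) ∧ c (i + 1) = write (c i) (w i)

/-- The cost of a computation of `t` steps if an access to the register `a` costs `f a`: the number
of the steps, plus the smaller one of two sums: the sum of `f a` over the registers `a` read, and the
sum of `f a` over the registers `a` written (a register is counted each time it is read or
written). The stack operations cost nothing. -/
noncomputable def Machine.cost (M : Machine n Q A Γ Λ) (f : A → ℝ) (t : ℕ) (p : ℕ → Q)
    (w : ℕ → Option (A × Γ)) : ℝ :=
  t + min (∑ i ∈ Finset.range t, (M.rd i (p i)).elim 0 f)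
    (∑ i ∈ Finset.range t, (w i).elim 0 fun x => f x.1)

/-- The machine recognises the triangle-free graphs among the graphs with the degrees `δ`, at a
cost of at most `T`: every triangle-free graph with the degrees `δ` has a computation that ends in
an accepting state and costs at most `T`, and a graph with the degrees `δ` and with a triangle has
no computation that ends in an accepting state. -/
def Machine.Recognises (M : Machine n Q A Γ Λ) (f : A → ℝ) (T : ℝ) (δ : Fin n → ℕ) : Prop :=
  ∀ G : SimpleGraph (Fin n), (∀ v, (adjList G v).length = δ v) →
    (G.CliqueFree 3 → ∃ t q p s c w, M.IsComputation G t q p s c w ∧ p t ∈ M.acc ∧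
      M.cost f t p w ≤ T) ∧
    (¬ G.CliqueFree 3 → ¬ ∃ t q p s c w, M.IsComputation G t q p s c w ∧ p t ∈ M.acc)

end Pool.Agent.ACS
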