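import Mathlib
import Pool.Agent.ACS.Defs
import Pool.Agent.ACC.Hybrid

/-!
# Machines with a stack and a far memory: for given records of the far accesses the legality of a step
is a local condition
-/

set_option autoImplicit false

namespace Pool.Agent.ACS

open Finset Pool.Agent.TS
open Pool.Agent.ACC (write memo lastw lastw_lt memo_congr write_none write_same write_of_ne write_not
  writes grph)

/-- One stack operation. -/
inductive Mv {Q Λ : Type} (push pop : Q → Λ → Q → Prop) : Q × List Λ → Q × List Λ → Prop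
  | push {q q' : Q} {a : Λ} {s : List Λ} (h : push q a q') : Mv push pop (q, s) (q', a :: s)
  | pop {q q' : Q} {a : Λ} {s : List Λ} (h : pop q a q') : Mv push pop (q, a :: s) (q', s)

/-- Abstract machines with a stack and a far memory. -/
structure FM (J B U Q A Γ Λ : Type) where
  start : Q → Prop
  init : A → Γ
  push : ℕ → Q → Λ → Q → Prop
  pop : ℕ → Q → Λ → Q → Prop
  rd : ℕ → Q → Option A
  ask : ℕ → Q → Option Γ → Option (PQ J B U)
  step : ℕ → Q → Option Γ → Option U → Q → Option (A × Γ) → Prop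
  acc : Q → Prop

variable {J B U Q A Γ Λ : Type}

/-- The content read at time `τ`. -/
noncomputable def FM.val (M : FM J B U Q A Γ Λ) (q : ℕ → Q) (w : ℕ → Option (A × Γ)) (τ : ℕ) :
    Option Γ :=
  (M.rd τ (q τ)).map (memo M.init w τ)

/-- An accepting run of exactly `t` steps on `z`: the states `x` and the stacks `s` before the stack
operations, the states `q` after them, and the writes `w`. -/
def FM.Run (M : FM J B U Q A Γ Λ) (t : ℕ) (z : Inp J B U) (x q : ℕ → Q) (s : ℕ → List Λ)
    (w : ℕ → Option (A × Γ)) : Prop :=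
  M.start (x 0) ∧ s 0 = [] ∧
    (∀ i ≤ t, Relation.ReflTransGen (Mv (M.push i) (M.pop i)) (x i, s i) (q i, s (i + 1))) ∧
    (∀ τ < t, M.step τ (q τ) (M.val q w τ)
      ((M.ask τ (q τ) (M.val q w τ)).map (ans z)) (x (τ + 1)) (w τ)) ∧ M.acc (q t)

open Classical in
/-- The number of far accesses that is counted: writes if `b = true`, reads if `b = false`. -/
noncomputable def FM.far (M : FM J B U Q A Γ Λ) (b : Bool) (t : ℕ) (q : ℕ → Q)
    (w : ℕ → Option (A × Γ)) : ℕ :=
  if b then writes t w else ((Finset.range t).filter fun i => M.rd i (q i) ≠ none).card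

/-- The record of step `τ`: of the write if `b = true`, of the read if `b = false`. -/
noncomputable def FM.recd (M : FM J B U Q A Γ Λ) (b : Bool) (q : ℕ → Q) (w : ℕ → Option (A × Γ))
    (τ : ℕ) : Option (Option ℕ × A × Γ) :=
  if b then (w τ).map fun p => (none, p)
  else (M.rd τ (q τ)).map fun a => (lastw w a τ, a, memo M.init w τ a)

/-- Machines with a stack and without a far memory. -/
structure LM (J B U Q Λ : Type) where
  start : Q → Prop
  push : ℕ → Q → Λ → Q → Prop
  pop : ℕ → Q → Λ → Q → Prop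
  ask : ℕ → Q → Option (PQ J B U)
  step : ℕ → Q → Option U → Q → Prop
  acc : Q → Prop

/-- An accepting run of exactly `t` steps on `z`. -/
def LM.Run (M : LM J B U Q Λ) (t : ℕ) (z : Inp J B U) (x q : ℕ → Q) (s : ℕ → List Λ) : Prop :=
  M.start (x 0) ∧ s 0 = [] ∧
    (∀ i ≤ t, Relation.ReflTransGen (Mv (M.push i) (M.pop i)) (x i, s i) (q i, s (i + 1))) ∧
    (∀ τ < t, M.step τ (q τ) ((M.ask τ (q τ)).map (ans z)) (x (τ + 1))) ∧ M.acc (q t)

/-! ### the memory -/

section Memo

lemma memo_none (c0 : A → Γ) (w : ℕ → Option (A × Γ)) (a : A) (τ : ℕ)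
    (h : ∀ σ < τ, ∀ v, w σ ≠ some (a, v)) : memo c0 w τ a = c0 a := by
  induction τ with
  | zero => rfl
  | succ τ ih =>
    rw [memo, write_not _ _ _ (h τ (Nat.lt_succ_self τ))]
    exact ih fun σ hσ => h σ (by omega)

lemma memo_some (c0 : A → Γ) (w : ℕ → Option (A × Γ)) (a : A) (γ : Γ) (i τ : ℕ) (hi : i < τ)
    (hw : w i = some (a, γ)) (h : ∀ σ, i < σ → σ < τ → ∀ v, w σ ≠ some (a, v)) :
    memo c0 w τ a = γ := by
  induction τ with
  | zero => omega
  | succ τ ih =>
    rw [memo]
    rcases Nat.lt_succ_iff_lt_or_eq.1 hi with h1 | h1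
    · rw [write_not _ _ _ (h τ h1 (Nat.lt_succ_self τ))]
      exact ih h1 fun σ h2 h3 => h σ h2 (by omega)
    · subst h1
      rw [hw, write_same]

lemma lastw_none (w : ℕ → Option (A × Γ)) (a : A) (τ : ℕ) (h : lastw w a τ = none) :
    ∀ σ < τ, ∀ v, w σ ≠ some (a, v) := by
  classical
  induction τ with
  | zero => intro σ hσ; omega
  | succ τ ih =>
    rw [lastw] at h
    split_ifs at h with hc
    intro σ hσ v hv
    rcases Nat.lt_succ_iff_lt_or_eq.1 hσ with h1 | h1
    · exact ih h σ h1 v hv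
    · subst h1
      exact hc ⟨v, hv⟩

lemma lastw_some (c0 : A → Γ) (w : ℕ → Option (A × Γ)) (a : A) (τ i : ℕ)
    (h : lastw w a τ = some i) : w i = some (a, memo c0 w τ a) := by
  classical
  induction τ with
  | zero => simp [lastw] at h
  | succ τ ih =>
    rw [lastw] at h
    split_ifs at h with hc
    · obtain rfl := Option.some.inj h
      obtain ⟨v, hv⟩ := hc
      rw [memo, hv, write_same]
    · rw [memo, write_not _ _ _ fun v hv => hc ⟨v, hv⟩]
      exact ih h

lemma lastw_ge (w : ℕ → Option (A × Γ)) (a : A) (τ σ : ℕ) (v : Γ) (hσ : σ < τ)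
    (hv : w σ = some (a, v)) : ∃ i, lastw w a τ = some i ∧ σ ≤ i := by
  classical
  induction τ with
  | zero => omega
  | succ τ ih =>
    rw [lastw]
    by_cases hc : ∃ v, w τ = some (a, v)
    · rw [if_pos hc]
      exact ⟨τ, rfl, by omega⟩
    · rw [if_neg hc]
      rcases Nat.lt_succ_iff_lt_or_eq.1 hσ with h1 | h1
      · exact ih h1
      · subst h1
        exact absurd ⟨v, hv⟩ hc

end Memo

/-! ### the local machine -/

/-- The content read in step `τ` in the state `q`, according to the records `R`. -/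
noncomputable def rdv (M : FM J B U Q A Γ Λ) (b : Bool) (R : ℕ → Option (Option ℕ × A × Γ)) (τ : ℕ)
    (q : Q) : Option Γ :=
  if b then (M.rd τ q).map (memo M.init (fun σ => (R σ).map Prod.snd) τ)
  else (R τ).map fun x => x.2.2

/-- The state `q` and the write `w` in step `τ` are consistent with the records `R`. -/
def Ok (M : FM J B U Q A Γ Λ) (b : Bool) (R : ℕ → Option (Option ℕ × A × Γ)) (t τ : ℕ) (q : Q)
    (w : Option (A × Γ)) : Prop :=
  if b then R τ = w.map fun p => (none, p)
  else (R τ).map (fun x => x.2.1) = M.rd τ q ∧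
    (∀ a γ, R τ = some (none, a, γ) → γ = M.init a) ∧
    (∀ i a γ, R τ = some (some i, a, γ) → i < τ) ∧
    ∀ σ l a γ, τ < σ → σ < t → R σ = some (l, a, γ) →
      (l = some τ → w = some (a, γ)) ∧ ((∀ i, l = some i → i < τ) → ∀ v, w ≠ some (a, v))

/-- The machine without far memory, for given records. -/
noncomputable def loc (M : FM J B U Q A Γ Λ) (b : Bool) (R : ℕ → Option (Option ℕ × A × Γ))
    (t : ℕ) : LM J B U Q Λ where
  start := M.start
  push := M.push
  pop := M.pop
  ask τ q := M.ask τ q (rdv M b R τ q)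
  step τ q an q' := ∃ w, Ok M b R t τ q w ∧ M.step τ q (rdv M b R τ q) an q' w
  acc := M.acc

lemma rdv_recd (M : FM J B U Q A Γ Λ) (b : Bool) (R : ℕ → Option (Option ℕ × A × Γ)) (t : ℕ)
    (q : ℕ → Q) (w : ℕ → Option (A × Γ)) (hR : ∀ τ < t, R τ = M.recd b q w τ) (τ : ℕ) (hτ : τ < t) :
    rdv M b R τ (q τ) = M.val q w τ := by
  cases b with
  | true =>
    simp only [rdv, if_true, FM.val]
    congr 1
    refine memo_congr _ _ _ _ fun σ hσ => ?_
    rw [hR σ (by omega)]
    simp only [FM.recd, if_true, Option.map_map]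
    rcases w σ with _ | p <;> rfl
  | false =>
    simp only [rdv, Bool.false_eq_true, if_false, FM.val]
    rw [hR τ hτ]
    simp only [FM.recd, Bool.false_eq_true, if_false, Option.map_map]
    rfl

lemma ok_recd (M : FM J B U Q A Γ Λ) (b : Bool) (R : ℕ → Option (Option ℕ × A × Γ)) (t : ℕ)
    (q : ℕ → Q) (w : ℕ → Option (A × Γ)) (hR : ∀ τ < t, R τ = M.recd b q w τ) (τ : ℕ) (hτ : τ < t) :
    Ok M b R t τ (q τ) (w τ) := by
  cases b with
  | true =>
    simp only [Ok, if_true]
    rw [hR τ hτ]
    simp only [FM.recd, if_true]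
  | false =>
    have hR' : ∀ σ < t, ∀ l a γ, R σ = some (l, a, γ) →
        M.rd σ (q σ) = some a ∧ lastw w a σ = l ∧ memo M.init w σ a = γ := by
      intro σ hσ l a γ h
      rw [hR σ hσ] at h
      simp only [FM.recd, Bool.false_eq_true, if_false, Option.map_eq_some_iff,
        Prod.mk.injEq] at h
      obtain ⟨a', h1, h2, rfl, h3⟩ := h
      exact ⟨h1, h2, h3⟩
    simp only [Ok, Bool.false_eq_true, if_false]
    refine ⟨?_, ?_, ?_, ?_⟩
    · rw [hR τ hτ]
      simp only [FM.recd, Bool.false_eq_true, if_false, Option.map_map]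
      rcases M.rd τ (q τ) with _ | a <;> rfl
    · intro a γ h
      obtain ⟨_, h2, h3⟩ := hR' τ hτ _ _ _ h
      rw [← h3]
      exact memo_none _ _ _ _ (lastw_none w a τ h2)
    · intro i a γ h
      obtain ⟨_, h2, _⟩ := hR' τ hτ _ _ _ h
      exact lastw_lt w a τ i h2
    · intro σ l a γ h1 h2 h3
      obtain ⟨_, h4, h5⟩ := hR' σ h2 _ _ _ h3
      constructor
      · rintro rfl
        rw [lastw_some M.init w a σ τ h4, h5]
      · intro h6 v hv
        obtain ⟨i, h7, h8⟩ := lastw_ge w a σ τ v h1 hv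
        have := h6 i (by rw [← h4, h7])
        omega

/-- A run with the records `R` is a run of the local machine. -/
theorem loc_complete (M : FM J B U Q A Γ Λ) (b : Bool) (R : ℕ → Option (Option ℕ × A × Γ)) (t : ℕ)
    (z : Inp J B U) (x q : ℕ → Q) (s : ℕ → List Λ) (w : ℕ → Option (A × Γ))
    (h : M.Run t z x q s w) (hR : ∀ τ < t, R τ = M.recd b q w τ) :
    (loc M b R t).Run t z x q s := by
  obtain ⟨h1, h2, h3, h4, h5⟩ := h
  refine ⟨h1, h2, h3, fun τ hτ => ⟨w τ, ok_recd M b R t q w hR τ hτ, ?_⟩, h5⟩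
  have h6 := h4 τ hτ
  simp only [loc]
  rw [rdv_recd M b R t q w hR τ hτ]
  exact h6

lemma val_ok (M : FM J B U Q A Γ Λ) (b : Bool) (R : ℕ → Option (Option ℕ × A × Γ)) (t : ℕ)
    (q : ℕ → Q) (w : ℕ → Option (A × Γ)) (hok : ∀ τ < t, Ok M b R t τ (q τ) (w τ)) (τ : ℕ)
    (hτ : τ < t) : M.val q w τ = rdv M b R τ (q τ) := by
  cases b with
  | true =>
    simp only [rdv, if_true, FM.val]
    congr 1
    refine memo_congr _ _ _ _ fun σ hσ => ?_
    have h1 := hok σ (by omega)
    simp only [Ok, if_true] at h1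
    rw [h1]
    simp only [Option.map_map]
    rcases w σ with _ | p <;> rfl
  | false =>
    have h1 := hok τ hτ
    simp only [Ok, Bool.false_eq_true, if_false] at h1
    obtain ⟨h2, h3, h4, _⟩ := h1
    simp only [rdv, Bool.false_eq_true, if_false, FM.val]
    rcases h5 : R τ with _ | ⟨l, a, γ⟩
    · rw [h5] at h2
      rw [← h2]
      rfl
    · rw [h5] at h2
      rw [← h2]
      simp only [Option.map_some, Option.some.injEq]
      rcases l with _ | i
      · rw [h3 a γ h5]
        refine memo_none _ _ _ _ fun σ hσ v => ?_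
        have h6 := hok σ (by omega)
        simp only [Ok, Bool.false_eq_true, if_false] at h6
        exact ((h6.2.2.2 τ none a γ hσ hτ h5).2 (by intro i hi; exact absurd hi (by simp))) v
      · have hi := h4 i a γ h5
        refine memo_some _ _ _ _ i τ hi ?_ ?_
        · have h6 := hok i (by omega)
          simp only [Ok, Bool.false_eq_true, if_false] at h6
          exact (h6.2.2.2 τ (some i) a γ hi hτ h5).1 rfl
        · intro σ h7 h8 v
          have h6 := hok σ (by omega)
          simp only [Ok, Bool.false_eq_true, if_false] at h6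
          refine (h6.2.2.2 τ (some i) a γ h8 hτ h5).2 ?_ v
          intro j hj
          obtain rfl := Option.some.inj hj
          exact h7

open Classical in
lemma far_ok (M : FM J B U Q A Γ Λ) (b : Bool) (R : ℕ → Option (Option ℕ × A × Γ)) (t : ℕ)
    (q : ℕ → Q) (w : ℕ → Option (A × Γ)) (hok : ∀ τ < t, Ok M b R t τ (q τ) (w τ)) :
    M.far b t q w = ((Finset.range t).filter fun τ => R τ ≠ none).card := by
  cases b with
  | true =>
    simp only [FM.far, if_true, writes]
    congr 1
    refine Finset.filter_congr fun τ hτ => ?_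
    have h1 := hok τ (Finset.mem_range.1 hτ)
    simp only [Ok, if_true] at h1
    rw [h1]
    rcases w τ with _ | p <;> simp
  | false =>
    simp only [FM.far, Bool.false_eq_true, if_false]
    congr 1
    refine Finset.filter_congr fun τ hτ => ?_
    have h1 := hok τ (Finset.mem_range.1 hτ)
    simp only [Ok, Bool.false_eq_true, if_false] at h1
    rw [← h1.1]
    rcases R τ with _ | x <;> simp

open Classical in
/-- A run of the local machine is a run of the machine; the number of the far accesses is the number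
of the records. -/
theorem loc_sound (M : FM J B U Q A Γ Λ) (b : Bool) (R : ℕ → Option (Option ℕ × A × Γ)) (t : ℕ)
    (z : Inp J B U) (x q : ℕ → Q) (s : ℕ → List Λ)
    (h : (loc M b R t).Run t z x q s) : ∃ w, M.Run t z x q s w ∧
      M.far b t q w = ((Finset.range t).filter fun τ => R τ ≠ none).card := by
  obtain ⟨h1, h2, h3, h4, h6⟩ := h
  have h5 : ∀ τ, τ < t → ∃ w, Ok M b R t τ (q τ) w ∧ M.step τ (q τ) (rdv M b R τ (q τ))
      ((M.ask τ (q τ) (rdv M b R τ (q τ))).map (ans z)) (x (τ + 1)) w := fun τ hτ => h4 τ hτ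
  choose! w hw using h5
  have hok : ∀ τ < t, Ok M b R t τ (q τ) (w τ) := fun τ hτ => (hw τ hτ).1
  refine ⟨w, ⟨h1, h2, h3, fun τ hτ => ?_, h6⟩, far_ok M b R t q w hok⟩
  rw [val_ok M b R t q w hok τ hτ]
  exact (hw τ hτ).2

/-! ### records as sets -/

open Classical in
/-- The records given by a set. -/
noncomputable def dec (X : Finset (Σ _ : ℕ, Option ℕ × A × Γ)) (τ : ℕ) :
    Option (Option ℕ × A × Γ) :=
  if h : ∃ x, (⟨τ, x⟩ : Σ _ : ℕ, Option ℕ × A × Γ) ∈ X then some h.choose else none

lemma dec_grph (t : ℕ) (f : ℕ → Option (Option ℕ × A × Γ)) (τ : ℕ) (hτ : τ < t) :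
    dec (grph t f) τ = f τ := by
  classical
  have h1 : ∀ x, (⟨τ, x⟩ : Σ _ : ℕ, Option ℕ × A × Γ) ∈ grph t f ↔ f τ = some x := by
    intro x
    simp [grph, hτ]
  unfold dec
  split_ifs with h
  · exact ((h1 _).1 h.choose_spec).symm
  · rcases h2 : f τ with _ | x
    · rfl
    · exact absurd ⟨x, (h1 x).2 h2⟩ h

open Classical in
lemma dec_card (X : Finset (Σ _ : ℕ, Option ℕ × A × Γ)) (t : ℕ) :
    ((Finset.range t).filter fun τ => dec X τ ≠ none).card ≤ X.card := by
  classical
  have h1 : ∀ τ, dec X τ ≠ none → ∃ x, (⟨τ, x⟩ : Σ _ : ℕ, Option ℕ × A × Γ) ∈ X := by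
    intro τ h
    by_contra hcon
    exact h (by unfold dec; rw [dif_neg hcon])
  refine (Finset.card_le_card (t := X.image Sigma.fst) fun τ hτ => ?_).trans
    Finset.card_image_le
  obtain ⟨x, hx⟩ := h1 τ (Finset.mem_filter.1 hτ).2
  exact Finset.mem_image.2 ⟨_, hx, rfl⟩

end Pool.Agent.ACS
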