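import Mathlib
import Pool.Agent.Lib_helper21.TS.Final
import Pool.Agent.ACC.Num
import Pool.Agent.ACC.Ram
import Pool.Agent.ACS.Loc

/-!
# From machines on graphs to machines on inputs, and cheap registers as a part of the state
-/

set_option autoImplicit false

namespace Pool.Agent.ACS

open Finset Equiv Pool.Agent.TS
open Pool.Agent.ACC (write memo writes cont nearW farW valOf farR valOf_eq cont_write read_ge
  read_nonneg write_ge write_nonneg)

open Classical in
/-- The number of the steps before time `t` that read a register. -/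
noncomputable def Machine.reads {n : ℕ} {Q A Γ Λ : Type} (M : Machine n Q A Γ Λ) (t : ℕ)
    (q : ℕ → Q) : ℕ :=
  ((Finset.range t).filter fun i => M.rd i (q i) ≠ none).card

/-- Some computation of at most `T` steps on `G` ends in an accepting state and reads registers
at most `F` times or writes into registers at most `F` times. -/
def Machine.Accepts {n : ℕ} {Q A Γ Λ : Type} (M : Machine n Q A Γ Λ) (T F : ℕ)
    (G : SimpleGraph (Fin n)) : Prop :=
  ∃ (t : ℕ) (q p : ℕ → Q) (s : ℕ → List Λ) (c : ℕ → A → Γ) (w : ℕ → Option (A × Γ)), t ≤ T ∧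
    M.IsComputation G t q p s c w ∧ p t ∈ M.acc ∧ (M.reads t p ≤ F ∨ writes t w ≤ F)

/-- Moves given by sets. -/
lemma move_iff {n : ℕ} {Q A Γ Λ : Type} (M : Machine n Q A Γ Λ) (i : ℕ) (x y : Q × List Λ) :
    M.Move i x y ↔ Mv (fun q a q' => (a, q') ∈ M.push i q) (fun q a q' => q' ∈ M.pop i q a) x y := by
  constructor
  · intro h
    cases h with
    | push h => exact Mv.push h
    | pop h => exact Mv.pop h
  · intro h
    cases h with
    | push h => exact Machine.Move.push h
    | pop h => exact Machine.Move.pop h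

lemma moves_iff {n : ℕ} {Q A Γ Λ : Type} (M : Machine n Q A Γ Λ) (i : ℕ) (x y : Q × List Λ) :
    Relation.ReflTransGen (M.Move i) x y ↔
      Relation.ReflTransGen (Mv (fun q a q' => (a, q') ∈ M.push i q)
        (fun q a q' => q' ∈ M.pop i q a)) x y := by
  have h : M.Move i = Mv (fun q a q' => (a, q') ∈ M.push i q) (fun q a q' => q' ∈ M.pop i q a) := by
    funext x y
    exact propext (move_iff M i x y)
  rw [h]

section Conv

variable {J B U : Type} {t d w pad : ℕ} (eJ : J ≃ Fin t) (eB : B ≃ Fin d) (eU : U ≃ Fin w)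

/-- The machine on inputs induced by a machine on graphs. -/
def toFM {Q A Γ Λ : Type} (E : B × U → B × U → Prop)
    (M : Machine (t * w + (d * w + (d * w + pad))) Q A Γ Λ) : FM J B U Q A Γ Λ where
  start x := x ∈ M.start
  init := M.init
  push i q a q' := (a, q') ∈ M.push i q
  pop i q a q' := q' ∈ M.pop i q a
  rd := M.rd
  acc x := x ∈ M.acc
  ask i q γ := tr eJ eB eU pad (M.ask i q γ)
  step i q γ a q' v := ∃ z : Inp J B U, (tr eJ eB eU pad (M.ask i q γ)).map (ans z) = a ∧
    (q', v) ∈ M.next i q γ (answer (theGraph eJ eB eU pad E z) (M.ask i q γ))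

lemma accepts_iff {Q A Γ Λ : Type} (E : B × U → B × U → Prop)
    (M : Machine (t * w + (d * w + (d * w + pad))) Q A Γ Λ) (T F : ℕ) (z : Inp J B U) :
    M.Accepts T F (theGraph eJ eB eU pad E z) ↔
      ∃ T' ≤ T, ∃ b x q s v, (toFM eJ eB eU E M).Run T' z x q s v ∧
        (toFM eJ eB eU E M).far b T' q v ≤ F := by
  unfold Machine.Accepts
  constructor
  · rintro ⟨n, x, q, s, c, v, hn, ⟨h1, hs, h2, hm, h3⟩, h4, h5⟩
    have hc : ∀ i ≤ n, c i = memo M.init v i := by
      intro i
      induction i with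
      | zero => intro _; exact h2
      | succ i ih =>
        intro hi
        rw [(h3 i (by omega)).2, ih (by omega), memo]
    have hrun : (toFM eJ eB eU E M).Run n z x q s v := by
      refine ⟨h1, hs, fun i hi => (moves_iff M i _ _).1 (hm i hi), fun i hi => ?_, h4⟩
      refine ⟨z, rfl, ?_⟩
      have h6 := (h3 i hi).1
      rw [hc i hi.le] at h6
      exact h6
    rcases h5 with h5 | h5
    · exact ⟨n, hn, false, x, q, s, v, hrun, by simpa [FM.far, Machine.reads, toFM] using h5⟩
    · exact ⟨n, hn, true, x, q, s, v, hrun, by simpa [FM.far] using h5⟩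
  · rintro ⟨n, hn, b, x, q, s, v, hR, h5⟩
    refine ⟨n, x, q, s, memo M.init v, v, hn, ⟨hR.1, hR.2.1, rfl,
      fun i hi => (moves_iff M i _ _).2 (hR.2.2.1 i hi), fun i hi => ⟨?_, rfl⟩⟩, hR.2.2.2.2, ?_⟩
    · obtain ⟨z', h1, h2⟩ := hR.2.2.2.1 i hi
      have h3 := answer_eq eJ eB eU E z z' (M.ask i (q i) ((M.rd i (q i)).map (memo M.init v i)))
        h1.symm
      rw [h3]
      exact h2
    · cases b with
      | true => exact Or.inr (by simpa [FM.far] using h5)
      | false => exact Or.inl (by simpa [FM.far, Machine.reads, toFM] using h5)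

end Conv

section Sim

variable {n : ℕ} {Q A Γ Λ : Type} (P : A → Prop) [DecidablePred P]

/-- The machine with the near registers in its states. -/
noncomputable def sim (M : Machine n Q A Γ Λ) : Machine n (Q × ({a : A // P a} → Γ)) A Γ Λ where
  start := {x | x.1 ∈ M.start ∧ x.2 = fun a => M.init a.1}
  init := M.init
  push i x := {y | (y.1, y.2.1) ∈ M.push i x.1 ∧ y.2.2 = x.2}
  pop i x a := {y | y.1 ∈ M.pop i x.1 a ∧ y.2 = x.2}
  rd i x := farR P (M.rd i x.1)
  ask i x γ := M.ask i x.1 (valOf P (M.rd i x.1) x.2 γ)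
  next i x γ an := {y | ∃ w, (y.1.1, w) ∈ M.next i x.1 (valOf P (M.rd i x.1) x.2 γ) an ∧
    y.1.2 = nearW P x.2 w ∧ y.2 = farW P w}
  acc := {x | x.1 ∈ M.acc}

lemma sim_moves_sound (M : Machine n Q A Γ Λ) (i : ℕ)
    {x y : (Q × ({a : A // P a} → Γ)) × List Λ}
    (h : Relation.ReflTransGen ((sim P M).Move i) x y) :
    Relation.ReflTransGen (M.Move i) (x.1.1, x.2) (y.1.1, y.2) ∧ y.1.2 = x.1.2 := by
  induction h with
  | refl => exact ⟨Relation.ReflTransGen.refl, rfl⟩
  | tail _ h ih =>
    cases h with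
    | push h => exact ⟨ih.1.tail (Machine.Move.push h.1), h.2.trans ih.2⟩
    | pop h => exact ⟨ih.1.tail (Machine.Move.pop h.1), h.2.trans ih.2⟩

lemma sim_moves_complete (M : Machine n Q A Γ Λ) (i : ℕ) (ν : {a : A // P a} → Γ)
    {x y : Q × List Λ} (h : Relation.ReflTransGen (M.Move i) x y) :
    Relation.ReflTransGen ((sim P M).Move i) ((x.1, ν), x.2) ((y.1, ν), y.2) := by
  induction h with
  | refl => exact Relation.ReflTransGen.refl
  | tail _ h ih =>
    cases h with
    | push h => exact ih.tail (Machine.Move.push (M := sim P M) ⟨h, rfl⟩)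
    | pop h => exact ih.tail (Machine.Move.pop (M := sim P M) ⟨h, rfl⟩)

lemma sim_sound (M : Machine n Q A Γ Λ) (G : SimpleGraph (Fin n)) (t : ℕ)
    (x y : ℕ → Q × ({a : A // P a} → Γ)) (s : ℕ → List Λ) (c' : ℕ → A → Γ)
    (v : ℕ → Option (A × Γ))
    (h : (sim P M).IsComputation G t x y s c' v) (hacc : y t ∈ (sim P M).acc) :
    ∃ (t : ℕ) (q p : ℕ → Q) (s : ℕ → List Λ) (c : ℕ → A → Γ) (w : ℕ → Option (A × Γ)),
      M.IsComputation G t q p s c w ∧ p t ∈ M.acc := by
  obtain ⟨h1, hs, h2, hm, h3⟩ := h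
  have h4 : ∀ i, i < t → ∃ w, ((x (i + 1)).1, w) ∈ M.next i (y i).1
      (valOf P (M.rd i (y i).1) (y i).2 ((farR P (M.rd i (y i).1)).map (c' i)))
      (answer G (M.ask i (y i).1
        (valOf P (M.rd i (y i).1) (y i).2 ((farR P (M.rd i (y i).1)).map (c' i))))) ∧
      (x (i + 1)).2 = nearW P (y i).2 w ∧ v i = farW P w := fun i hi => (h3 i hi).1
  choose! w hw using h4
  refine ⟨t, fun i => (x i).1, fun i => (y i).1, s, fun i => cont P (x i).2 (c' i), w,
    ⟨h1.1, hs, ?_, fun i hi => (sim_moves_sound P M i (hm i hi)).1, ?_⟩, hacc⟩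
  · funext a
    by_cases ha : P a
    · simp only [cont, dif_pos ha, h1.2]
    · simp only [cont, dif_neg ha, h2]
      rfl
  · intro i hi
    have h5 := hw i hi
    have h6 : (y i).2 = (x i).2 := (sim_moves_sound P M i (hm i hi.le)).2
    rw [h6, valOf_eq] at h5
    refine ⟨h5.1, ?_⟩
    simp only
    rw [h5.2.1, (h3 i hi).2, h5.2.2, cont_write]

lemma sim_complete (M : Machine n Q A Γ Λ) (G : SimpleGraph (Fin n)) (t : ℕ)
    (q p : ℕ → Q) (s : ℕ → List Λ) (c : ℕ → A → Γ) (w : ℕ → Option (A × Γ))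
    (h : M.IsComputation G t q p s c w) (hacc : p t ∈ M.acc) :
    (sim P M).IsComputation G t (fun i => (q i, fun b => c i b.1))
      (fun i => (p i, fun b => c i b.1)) s
      (fun i a => if P a then M.init a else c i a) (fun i => farW P (w i)) ∧
    (p t, fun b : {a : A // P a} => c t b.1) ∈ (sim P M).acc := by
  obtain ⟨h1, hs, h2, hm, h3⟩ := h
  have hc : ∀ i, cont P (fun b : {a : A // P a} => c i b.1)
      (fun a => if P a then M.init a else c i a) = c i := by
    intro i
    funext a
    by_cases ha : P a <;> simp [cont, ha]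
  refine ⟨⟨⟨h1, ?_⟩, hs, ?_, fun i hi => sim_moves_complete P M i _ (hm i hi), ?_⟩, hacc⟩
  · funext b
    simp only [h2]
  · funext a
    simp only [h2, ite_self]
    rfl
  · intro i hi
    have h5 := h3 i hi
    refine ⟨⟨w i, ?_, ?_, rfl⟩, ?_⟩
    · simp only [sim]
      rw [valOf_eq, hc]
      exact h5.1
    · funext b
      simp only [h5.2]
      rcases h6 : w i with _ | ⟨a, v⟩
      · simp [nearW, write]
      · simp [nearW, write]
    · funext b
      simp only [h5.2]
      rcases h6 : w i with _ | ⟨a, v⟩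
      · simp [farW, write]
      · by_cases ha : P a
        · by_cases hb : P b
          · simp [farW, write, ha, hb]
          · have hba : b ≠ a := by rintro rfl; exact hb ha
            simp [farW, write, ha, hb, hba]
        · by_cases hb : P b
          · have hba : b ≠ a := by rintro rfl; exact ha hb
            simp [farW, write, ha, hb, hba]
          · simp [farW, write, ha, hb]

omit P in
lemma cost_nonneg (M : Machine n Q A Γ Λ) (f : A → ℝ) (hf : ∀ a, 0 ≤ f a) (t : ℕ) (q : ℕ → Q)
    (w : ℕ → Option (A × Γ)) : (t : ℝ) ≤ M.cost f t q w := by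
  unfold Machine.cost
  have : 0 ≤ min (∑ i ∈ Finset.range t, (M.rd i (q i)).elim 0 f)
      (∑ i ∈ Finset.range t, (w i).elim 0 fun x => f x.1) :=
    le_min (Finset.sum_nonneg fun i _ => read_nonneg hf _)
      (Finset.sum_nonneg fun i _ => write_nonneg hf _)
  linarith

/-- Few far accesses. -/
lemma sim_far (M : Machine n Q A Γ Λ) (f : A → ℝ) (hf : ∀ a, 0 ≤ f a) (φ : ℝ)
    (hφ : 0 < φ) (hfm : ∀ a, ¬ P a → φ ≤ f a) (t : ℕ) (q : ℕ → Q) (c : ℕ → A → Γ)
    (w : ℕ → Option (A × Γ)) (T : ℝ) (hT : M.cost f t q w ≤ T) :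
    (sim P M).reads t (fun i => (q i, fun b => c i b.1)) ≤ ⌊T / φ⌋₊ ∨
      writes t (fun i => farW P (w i)) ≤ ⌊T / φ⌋₊ := by
  classical
  have hmin : min (∑ i ∈ Finset.range t, (M.rd i (q i)).elim 0 f)
      (∑ i ∈ Finset.range t, (w i).elim 0 fun x => f x.1) ≤ T := by
    unfold Machine.cost at hT
    have : (0 : ℝ) ≤ t := Nat.cast_nonneg _
    linarith
  rcases min_le_iff.1 hmin with h | h
  · left
    apply Nat.le_floor
    rw [le_div_iff₀ hφ]
    refine le_trans ?_ h
    unfold Machine.reads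
    rw [Finset.card_filter]
    push_cast
    rw [Finset.sum_mul]
    refine Finset.sum_le_sum fun i _ => ?_
    split_ifs with h7
    · rw [one_mul]
      exact read_ge P hfm _ h7
    · rw [zero_mul]
      exact read_nonneg hf _
  · right
    apply Nat.le_floor
    rw [le_div_iff₀ hφ]
    refine le_trans ?_ h
    unfold writes
    rw [Finset.card_filter]
    push_cast
    rw [Finset.sum_mul]
    refine Finset.sum_le_sum fun i _ => ?_
    split_ifs with h7
    · rw [one_mul]
      exact write_ge P hfm _ h7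
    · rw [zero_mul]
      exact write_nonneg hf _

end Sim

end Pool.Agent.ACS
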