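import Mathlib
import Pool.Agent.ACX.Main

/-!
# Families of lists of tests, and the number of the inputs that they accept
-/

set_option autoImplicit false

namespace Pool.Agent.ACS

open Finset Equiv Pool.Agent.TS Pool.Agent.HM
open Pool.Agent.RAC (Simp Sparse edg ES)
open Pool.Agent.ACX (shiftF S_SEL S_REC t_SEL t_REC)

/-- A test: the answer to the question is the given one. (The second component is a dummy.) -/
abbrev Tst (J B U : Type) : Type := (PQ J B U × U) × Bool

/-- The input passes the tests. -/
def Agr {J B U : Type} (z : Inp J B U) (l : List (Tst J B U)) : Prop :=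
  ∀ x ∈ l, ans z x.1.1 = x.1.2

lemma agr_append {J B U : Type} {z : Inp J B U} {l l' : List (Tst J B U)} :
    Agr z (l ++ l') ↔ Agr z l ∧ Agr z l' := by
  constructor
  · intro h
    exact ⟨fun x hx => h x (List.mem_append_left _ hx), fun x hx => h x (List.mem_append_right _ hx)⟩
  · rintro ⟨h1, h2⟩ x hx
    rcases List.mem_append.1 hx with hx | hx
    · exact h1 x hx
    · exact h2 x hx

section Fam

variable {J B U C : Type} [Fintype J] [Fintype B] [Fintype U] [DecidableEq J] [DecidableEq B]
  [DecidableEq U] [Fintype C] [DecidableEq C]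

open Classical in
/-- The entries of the first (`ty = true`) or second family read by a list of tests. -/
noncomputable def rds (z : Inp J B U) (l : List (Tst J B U)) (ty : Bool) :
    Finset ((J × U) × B) :=
  ((l.filter fun x => x.1.1.1 = ty).map fun x => src z x.1.1).toFinset

omit [Fintype J] [Fintype B] [Fintype U] in
lemma mem_rds {z : Inp J B U} {l : List (Tst J B U)} {ty : Bool} {e : (J × U) × B} :
    e ∈ rds z l ty ↔ ∃ x ∈ l, x.1.1.1 = ty ∧ src z x.1.1 = e := by
  classical
  simp only [rds, List.mem_toFinset, List.mem_map, List.mem_filter, decide_eq_true_eq]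
  constructor
  · rintro ⟨x, ⟨h1, h2⟩, h3⟩
    exact ⟨x, h1, h2, h3⟩
  · rintro ⟨x, h1, h2, h3⟩
    exact ⟨x, ⟨h1, h2⟩, h3⟩

omit [Fintype J] [Fintype B] [Fintype U] in
lemma rds_card (z : Inp J B U) (l : List (Tst J B U)) :
    (rds z l true).card + (rds z l false).card ≤ l.length := by
  classical
  have h1 : ∀ ty, (rds z l ty).card ≤ (l.filter fun x => x.1.1.1 = ty).length := by
    intro ty
    refine (List.toFinset_card_le _).trans ?_
    rw [List.length_map]
  refine (Nat.add_le_add (h1 true) (h1 false)).trans ?_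
  have h2 : (l.filter fun x => x.1.1.1 = false).length =
      (l.filter fun x => ¬ (x.1.1.1 = true)).length := by
    congr 1
    refine List.filter_congr fun x _ => ?_
    simp
  rw [h2]
  have h3 := List.length_eq_length_filter_add (l := l) (fun x => decide (x.1.1.1 = true))
  have h4 : (l.filter fun x => ¬ (x.1.1.1 = true)) =
      (l.filter fun x => !decide (x.1.1.1 = true)) := by
    refine List.filter_congr fun x _ => ?_
    simp
  rw [h4]
  omega

/-- The number of the inputs accepted by a family of lists of tests, the component `j` of which is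
a set `S j` of lists. -/
theorem fam_cnt (σ : C → Perm B) (adj : U → U → Prop) (ν h : ℝ) (M0 L r T m : ℕ)
    (S : Fin r → List (Tst J B U) → Prop) (A : Finset (Inp J B U)) (hSp : Sparse σ M0)
    (hML : M0 * L ≤ Fintype.card B) (hν : 0 < ν) (hh : 1 ≤ h) (h64 : 64 * h ^ 2 * ν ≤ 1)
    (hmix : ∀ P L : Finset U, (∀ x ∈ P, ∀ y ∈ L, ¬ adj x y) →
      (P.card : ℝ) * L.card ≤ ν * (Fintype.card U) ^ 2)
    (hC : 8 * h * Real.logb 2 h ≤ Fintype.card C) (hC0 : 0 < Fintype.card C)
    (htot : (T : ℝ) ≤ Fintype.card (J × U) * Fintype.card B * Real.logb 2 h)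
    (hm : m = ⌈(Fintype.card (J × U) * Fintype.card B : ℝ) / (2 * h)⌉₊)
    (hS : ∀ z : Inp J B U, (∀ j, ∃ l, S j l ∧ Agr z l) → TFree (ES σ adj) z.1 z.2)
    (hA : ∀ z ∈ A, ∃ w : Fin r → List (Tst J B U), (∀ j, S j (w j) ∧ Agr z (w j) ∧
      (w j).length ≤ L) ∧ ∑ j, (w j).length ≤ T) :
    (A.card : ℝ) ≤ 2 ^ r * Fintype.card C * ((Fintype.card ((J × U) × B)).choose m : ℝ) *
      (Real.exp (2 * m + m / 2 * Real.log (64 * h ^ 2 * ν)) * Fintype.card (Inp J B U)) := by
  classical
  have h1 : S_SEL := t_SEL
  have h2 : S_REC := t_REC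
  have hCne : Nonempty C := Fintype.card_pos_iff.1 hC0
  -- data for each accepted input
  have hdata : ∀ z : Inp J B U, z ∈ A →
      ∃ (w : Fin r → List (Tst J B U)) (χ : Fin r → Bool)
      (c : C) (F1 : Finset ((J × U) × B)), (∀ j, S j (w j) ∧ Agr z (w j)) ∧
      F1.card = m ∧
      (∀ e ∈ F1, ∀ j : Fin r, e ∈ rds z (w j) true → χ j = true) ∧
      (∀ e ∈ F1, ∀ j : Fin r, (e.1, σ c e.2) ∈ rds z (w j) false → χ j = false) := by
    intro z hz
    obtain ⟨w, hw, hwT⟩ := hA z hz
    obtain ⟨χ, c, F1, h3, h4, h5⟩ := h1 J B U C σ M0 L r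
      (fun j : Fin r => rds z (w j) true)
      (fun j : Fin r => rds z (w j) false) h hSp hML hh hC hC0
      (by
        intro j
        have h6 := (rds_card z (w j)).trans (hw j).2.2
        omega)
      (by
        intro j
        have h6 := (rds_card z (w j)).trans (hw j).2.2
        omega)
      (by
        refine le_trans ?_ htot
        have h5 : ∑ j : Fin r, ((rds z (w j) true).card + (rds z (w j) false).card) ≤ T :=
          (Finset.sum_le_sum (fun (j : Fin r) _ => rds_card z (w j))).trans hwT
        exact_mod_cast h5)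
    exact ⟨w, χ, c, F1, fun j => ⟨(hw j).1, (hw j).2.1⟩, h3.trans hm.symm, h4, h5⟩
  choose! fw fχ fc fF1 hf using hdata
  set dat : Inp J B U → (Fin r → Bool) × C × Finset ((J × U) × B) :=
      fun z => (fχ z, fc z, fF1 z) with hdat
  set tgt : Finset ((Fin r → Bool) × C × Finset ((J × U) × B)) :=
      Finset.univ ×ˢ (Finset.univ ×ˢ Finset.powersetCard m Finset.univ) with htgt
  have hmaps : ∀ z ∈ A, dat z ∈ tgt := by
    intro z hz
    have h1 := hf z hz
    simp only [hdat, htgt, Finset.mem_product, Finset.mem_univ, true_and,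
      Finset.mem_powersetCard_univ]
    exact h1.2.1
  have htgtcard : (tgt.card : ℝ) = 2 ^ r * Fintype.card C *
      ((Fintype.card ((J × U) × B)).choose m : ℝ) := by
    simp only [htgt, Finset.card_product, Finset.card_univ, Finset.card_powersetCard,
      Fintype.card_fun, Fintype.card_fin, Fintype.card_bool]
    push_cast
    ring
  have hfib : ∀ D0 ∈ tgt, ((A.filter fun z => dat z = D0).card : ℝ) ≤
      Real.exp (2 * m + m / 2 * Real.log (64 * h ^ 2 * ν)) * Fintype.card (Inp J B U) := by
    rintro ⟨χ, c, F1⟩ _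
    rcases (A.filter fun z => dat z = (χ, c, F1)).eq_empty_or_nonempty with
      he | hne
    · rw [he]; simp only [Finset.card_empty, Nat.cast_zero]; positivity
    obtain ⟨z0, hz0⟩ := hne
    rw [Finset.mem_filter] at hz0
    have hz0' := hf z0 hz0.1
    have hF1e : fF1 z0 = F1 := by
      have := hz0.2; simp only [hdat, Prod.mk.injEq] at this; exact this.2.2
    have hF1card : F1.card = m := by rw [← hF1e]; exact hz0'.2.1
    set F2 : Finset ((J × U) × B) := shiftF σ c F1 with hF2
    apply orbit_bound _ F1 F2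
    intro z
    set P := (Gam F1 ×ˢ Gam F2).filter fun g : Inp J B U =>
      z * g ∈ A.filter fun z => dat z = (χ, c, F1) with hP
    set S1 : Finset (J × B → Perm U) := P.image Prod.fst with hS1
    set S2 : Finset (J × B → Perm U) := P.image Prod.snd with hS2
    have hPle : (P.card : ℝ) ≤ (S1.card : ℝ) * S2.card := by
      have : P ⊆ S1 ×ˢ S2 := by
        intro g hg
        rw [Finset.mem_product]
        exact ⟨Finset.mem_image_of_mem _ hg, Finset.mem_image_of_mem _ hg⟩
      have := Finset.card_le_card this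
      rw [Finset.card_product] at this
      exact_mod_cast this
    refine hPle.trans ?_
    rw [← hF1card]
    refine h2 J B U C σ adj ν h hν hh h64 hmix c F1 z.1 z.2 S1 S2 ?_ ?_ ?_ ?_
    · rw [hF1card, hm]
      exact Nat.le_ceil _
    · intro g1 hg1
      rw [hS1, Finset.mem_image] at hg1
      obtain ⟨g, hg, rfl⟩ := hg1
      rw [hP, Finset.mem_filter, Finset.mem_product] at hg
      exact hg.1.1
    · intro g2 hg2
      rw [hS2, Finset.mem_image] at hg2
      obtain ⟨g, hg, rfl⟩ := hg2
      rw [hP, Finset.mem_filter, Finset.mem_product] at hg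
      exact hg.1.2
    · intro g1 hg1 g2 hg2
      rw [hS1, Finset.mem_image] at hg1
      rw [hS2, Finset.mem_image] at hg2
      obtain ⟨g, hg, rfl⟩ := hg1
      obtain ⟨g', hg', rfl⟩ := hg2
      rw [hP, Finset.mem_filter, Finset.mem_product, Finset.mem_filter] at hg hg'
      obtain ⟨hgG, hgA, hgD⟩ := hg
      obtain ⟨hgG', hgA', hgD'⟩ := hg'
      have hr := hf (z * g) hgA
      have hr' := hf (z * g') hgA'
      simp only [hdat, Prod.mk.injEq] at hgD hgD'
      obtain ⟨d2, d3, d4⟩ := hgD
      obtain ⟨d2', d3', d4'⟩ := hgD'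
      rw [d2, d3, d4] at hr
      rw [d2', d3', d4'] at hr'
      refine hS (z * (g.1, g'.2)) fun j => ?_
      by_cases hc : χ j = true
      · refine ⟨fw (z * g) j, (hr.1 j).1, ?_⟩
        intro x hx
        rw [← (hr.1 j).2 x hx]
        symm
        apply ans_eq_of_perm
        by_cases hty : x.1.1.1 = true
        · simp only [thePerm, hty, if_true]
          rfl
        · have hty' : x.1.1.1 = false := by simpa using hty
          have hsrc : src (z * g) x.1.1 ∉ F2 := by
            intro hin
            rw [hF2] at hin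
            simp only [shiftF, Finset.mem_image] at hin
            obtain ⟨e, heF, hee⟩ := hin
            have := hr.2.2.2 e heF j (mem_rds.2 ⟨x, hx, hty', hee.symm⟩)
            rw [this] at hc
            exact absurd hc (by decide)
          have e1 := mem_Gam.1 hgG.2 x.1.1.2.1.1 x.1.1.2.1.2 (srcElt (z * g) x.1.1) hsrc
          have e2 := mem_Gam.1 hgG'.2 x.1.1.2.1.1 x.1.1.2.1.2 (srcElt (z * g) x.1.1) hsrc
          have p1 : thePerm (z * g) x.1.1 = z.2 x.1.1.2.1 * g.2 x.1.1.2.1 := by
            simp only [thePerm, hty', Bool.false_eq_true, if_false]; rfl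
          have p2 : thePerm (z * (g.1, g'.2)) x.1.1 = z.2 x.1.1.2.1 * g'.2 x.1.1.2.1 := by
            simp only [thePerm, hty', Bool.false_eq_true, if_false]; rfl
          rw [p1, p2, Perm.mul_apply, Perm.mul_apply]
          have e1' : g.2 x.1.1.2.1 (srcElt (z * g) x.1.1) = srcElt (z * g) x.1.1 := e1
          have e2' : g'.2 x.1.1.2.1 (srcElt (z * g) x.1.1) = srcElt (z * g) x.1.1 := e2
          rw [e1', e2']
      · have hc' : χ j = false := by simpa using hc
        refine ⟨fw (z * g') j, (hr'.1 j).1, ?_⟩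
        intro x hx
        rw [← (hr'.1 j).2 x hx]
        symm
        apply ans_eq_of_perm
        by_cases hty : x.1.1.1 = true
        · have hsrc : src (z * g') x.1.1 ∉ F1 := by
            intro hin
            have := hr'.2.2.1 _ hin j (mem_rds.2 ⟨x, hx, hty, rfl⟩)
            rw [this] at hc'
            exact absurd hc' (by decide)
          have e1 := mem_Gam.1 hgG.1 x.1.1.2.1.1 x.1.1.2.1.2 (srcElt (z * g') x.1.1) hsrc
          have e2 := mem_Gam.1 hgG'.1 x.1.1.2.1.1 x.1.1.2.1.2 (srcElt (z * g') x.1.1) hsrc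
          have p1 : thePerm (z * g') x.1.1 = z.1 x.1.1.2.1 * g'.1 x.1.1.2.1 := by
            simp only [thePerm, hty, if_true]; rfl
          have p2 : thePerm (z * (g.1, g'.2)) x.1.1 = z.1 x.1.1.2.1 * g.1 x.1.1.2.1 := by
            simp only [thePerm, hty, if_true]; rfl
          rw [p1, p2, Perm.mul_apply, Perm.mul_apply]
          have e1' : g.1 x.1.1.2.1 (srcElt (z * g') x.1.1) = srcElt (z * g') x.1.1 := e1
          have e2' : g'.1 x.1.1.2.1 (srcElt (z * g') x.1.1) = srcElt (z * g') x.1.1 := e2
          rw [e1', e2']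
        · have hty' : x.1.1.1 = false := by simpa using hty
          simp only [thePerm, hty', Bool.false_eq_true, if_false]
          rfl
  rw [Finset.card_eq_sum_card_fiberwise hmaps]
  push_cast
  calc _ ≤ ∑ _D0 ∈ tgt, Real.exp (2 * m + m / 2 * Real.log (64 * h ^ 2 * ν)) *
        Fintype.card (Inp J B U) := Finset.sum_le_sum hfib
    _ = (tgt.card : ℝ) * (Real.exp (2 * m + m / 2 * Real.log (64 * h ^ 2 * ν)) *
        Fintype.card (Inp J B U)) := by rw [Finset.sum_const, nsmul_eq_mul]
    _ = _ := by rw [htgtcard]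

end Fam

end Pool.Agent.ACS
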