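import Mathlib
import Pool.Agent.ACS.Fam
import Pool.Agent.ACS.Loc
import Pool.Agent.STK.One

/-!
# Machines with a stack as stack programs
-/

set_option autoImplicit false

namespace Pool.Agent.ACS

open Finset Pool.Agent.TS
open Pool.Agent.STK (Prog Run)
open Pool.Agent.STK.ONE (R1)

variable {J B U Q Λ : Type}

/-- The nodes: `none` is the sink, `some (τ, q)` is the state `q` after `τ` steps. -/
abbrev Nd (T : ℕ) (Q : Type) : Type := Option (Fin (T + 1) × Q)

/-- The edges with tests. -/
inductive TEdge (M : LM J B U Q Λ) (T t : ℕ) : Nd T Q → List (Tst J B U) → Nd T Q → Prop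
  | noask {τ τ' : Fin (T + 1)} {q q' : Q} : τ'.1 = τ.1 + 1 → τ.1 < t → M.ask τ.1 q = none →
      M.step τ.1 q none q' → TEdge M T t (some (τ, q)) [] (some (τ', q'))
  | ask {τ τ' : Fin (T + 1)} {q q' : Q} {p : PQ J B U} {u : U} : τ'.1 = τ.1 + 1 → τ.1 < t →
      M.ask τ.1 q = some p → M.step τ.1 q (some u) q' →
      TEdge M T t (some (τ, q)) [((p, u), true)] (some (τ', q'))
  | fin {τ : Fin (T + 1)} {q : Q} : τ.1 = t → M.acc q → TEdge M T t (some (τ, q)) [] none

/-- The edges that push. -/
inductive PuEdge (M : LM J B U Q Λ) (T : ℕ) : Nd T Q → _root_.Fin 1 → Λ → Nd T Q → Prop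
  | mk {τ : Fin (T + 1)} {q q' : Q} {i : _root_.Fin 1} {c : Λ} : M.push τ.1 q c q' →
      PuEdge M T (some (τ, q)) i c (some (τ, q'))

/-- The edges that pop. -/
inductive PoEdge (M : LM J B U Q Λ) (T : ℕ) : Nd T Q → _root_.Fin 1 → Λ → Nd T Q → Prop
  | mk {τ : Fin (T + 1)} {q q' : Q} {i : _root_.Fin 1} {c : Λ} : M.pop τ.1 q c q' →
      PoEdge M T (some (τ, q)) i c (some (τ, q'))

/-- The stack program of a machine, for runs of exactly `t` steps. -/
def prog (M : LM J B U Q Λ) (T t : ℕ) : Prog (PQ J B U × U) 1 Λ (Nd T Q) where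
  source := none
  sink := none
  test := TEdge M T t
  push := PuEdge M T
  pop := PoEdge M T

lemma prog_blocks (M : LM J B U Q Λ) (T t : ℕ) : (prog M T t).Blocks 1 := by
  intro u l v h
  cases h <;> simp

/-- Stack operations in front of a run. -/
lemma moves_run (M : LM J B U Q Λ) (T t : ℕ) (τ : Fin (T + 1)) {v : Nd T Q} {s' : List Λ}
    {l : List (Tst J B U)} {x y : Q × List Λ}
    (h : Relation.ReflTransGen (Mv (M.push τ.1) (M.pop τ.1)) x y)
    (hr : R1 (prog M T t) (some (τ, y.1)) y.2 v s' l) :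
    R1 (prog M T t) (some (τ, x.1)) x.2 v s' l := by
  induction h using Relation.ReflTransGen.head_induction_on with
  | refl => exact hr
  | head h _ ih =>
    cases h with
    | push h => exact R1.push' (PuEdge.mk h) ih
    | pop h => exact R1.pop' (PoEdge.mk h) ih

/-- The runs of the machine are runs of the program. -/
lemma run_of (M : LM J B U Q Λ) (T t : ℕ) (ht : t ≤ T) (z : Inp J B U) (x q : ℕ → Q)
    (s : ℕ → List Λ) (h : M.Run t z x q s) (k : ℕ) :
    ∀ τ : Fin (T + 1), τ.1 + k = t →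
      ∃ l, R1 (prog M T t) (some (τ, x τ.1)) (s τ.1) none (s (t + 1)) l
      ∧ Agr z l ∧ l.length ≤ k := by
  obtain ⟨h1, h2, h3, h4, h5⟩ := h
  induction k with
  | zero =>
    intro τ hτ
    rw [Nat.add_zero] at hτ
    refine ⟨[] ++ [], ?_, ?_, le_rfl⟩
    · have h6 := h3 τ.1 hτ.le
      refine moves_run M T t τ h6 ?_
      simp only
      rw [hτ]
      exact R1.test' (TEdge.fin hτ h5) (Run.nil _ _)
    · intro x hx
      simp at hx
  | succ k ih =>
    intro τ hτ
    have hτt : τ.1 < t := by omega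
    obtain ⟨l, hl, hz, hlen⟩ := ih ⟨τ.1 + 1, by omega⟩ (by simp only; omega)
    have h6 := h3 τ.1 hτt.le
    have h7 := h4 τ.1 hτt
    simp only at hl
    rcases h8 : M.ask τ.1 (q τ.1) with _ | p
    · rw [h8] at h7
      refine ⟨[] ++ l, moves_run M T t τ h6 ?_, hz, ?_⟩
      · exact R1.test' (TEdge.noask (τ' := ⟨τ.1 + 1, by omega⟩) rfl hτt h8 h7) hl
      · simp only [List.nil_append]
        omega
    · rw [h8] at h7
      refine ⟨[((p, ans z p), true)] ++ l, moves_run M T t τ h6 ?_, ?_, ?_⟩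
      · exact R1.test' (TEdge.ask (τ' := ⟨τ.1 + 1, by omega⟩) rfl hτt h8 h7) hl
      · rw [agr_append]
        refine ⟨?_, hz⟩
        intro x hx
        rw [List.mem_singleton] at hx
        subst hx
        rfl
      · simp only [List.cons_append, List.nil_append, List.length_cons]
        omega

/-- There is an accepting run from the state `q₀` with the stack `s₀` after `τ` steps. -/
def From (M : LM J B U Q Λ) (t : ℕ) (z : Inp J B U) (τ : ℕ) (q₀ : Q) (s₀ : List Λ) : Prop :=
  ∃ (x q : ℕ → Q) (s : ℕ → List Λ), x τ = q₀ ∧ s τ = s₀ ∧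
    (∀ i, τ ≤ i → i ≤ t →
      Relation.ReflTransGen (Mv (M.push i) (M.pop i)) (x i, s i) (q i, s (i + 1))) ∧
    (∀ i, τ ≤ i → i < t → M.step i (q i) ((M.ask i (q i)).map (ans z)) (x (i + 1))) ∧ M.acc (q t)

lemma from_move {M : LM J B U Q Λ} {t : ℕ} {z : Inp J B U} {τ : ℕ} {q₀ q₁ : Q} {s₀ s₁ : List Λ}
    (h : Mv (M.push τ) (M.pop τ) (q₀, s₀) (q₁, s₁)) (hf : From M t z τ q₁ s₁) :
    From M t z τ q₀ s₀ := by
  obtain ⟨x, q, s, h1, h2, h3, h4, h5⟩ := hf
  refine ⟨fun i => if i = τ then q₀ else x i, q, fun i => if i = τ then s₀ else s i,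
    by simp, by simp, ?_, ?_, h5⟩
  · intro i hi hit
    rcases Nat.eq_or_lt_of_le hi with h6 | h6
    · subst h6
      simp only [if_true, Nat.succ_ne_self, if_false]
      refine Relation.ReflTransGen.head h ?_
      rw [← h1, ← h2]
      exact h3 τ le_rfl hit
    · have e1 : i ≠ τ := by omega
      have e2 : i + 1 ≠ τ := by omega
      simp only [e1, e2, if_false]
      exact h3 i hi hit
  · intro i hi hit
    have e2 : i + 1 ≠ τ := by omega
    simp only [e2, if_false]
    exact h4 i hi hit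

lemma from_step {M : LM J B U Q Λ} {t : ℕ} {z : Inp J B U} {τ : ℕ} {q₀ q₁ : Q} {s₀ : List Λ}
    (hτ : τ < t) (h : M.step τ q₀ ((M.ask τ q₀).map (ans z)) q₁)
    (hf : From M t z (τ + 1) q₁ s₀) : From M t z τ q₀ s₀ := by
  obtain ⟨x, q, s, h1, h2, h3, h4, h5⟩ := hf
  refine ⟨fun i => if i ≤ τ then q₀ else x i, fun i => if i ≤ τ then q₀ else q i,
    fun i => if i ≤ τ then s₀ else s i, by simp, by simp, ?_, ?_, ?_⟩
  · intro i hi hit
    rcases Nat.eq_or_lt_of_le hi with h6 | h6
    · subst h6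
      simp only [le_refl, if_true, Nat.not_succ_le_self, if_false]
      rw [h2]
    · have e1 : ¬ i ≤ τ := by omega
      have e2 : ¬ i + 1 ≤ τ := by omega
      simp only [e1, e2, if_false]
      exact h3 i h6 hit
  · intro i hi hit
    rcases Nat.eq_or_lt_of_le hi with h6 | h6
    · subst h6
      simp only [le_refl, if_true, Nat.not_succ_le_self, if_false]
      rw [h1]
      exact h
    · have e1 : ¬ i ≤ τ := by omega
      have e2 : ¬ i + 1 ≤ τ := by omega
      simp only [e1, e2, if_false]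
      exact h4 i h6 hit
  · have e1 : ¬ t ≤ τ := by omega
    simp only [e1, if_false]
    exact h5

/-- The meaning of a node. -/
def Mean (M : LM J B U Q Λ) (T t : ℕ) (z : Inp J B U) : Nd T Q → List Λ → Prop
  | none, _ => True
  | some (τ, q), s => From M t z τ.1 q s

lemma mean_of_run (M : LM J B U Q Λ) (T t : ℕ) (z : Inp J B U) {u v : Nd T Q}
    {s s' : _root_.Fin 1 → List Λ} {l : List (Tst J B U)} (h : Run (prog M T t) u s v s' l)
    (hv : v = none) (hz : Agr z l) : Mean M T t z u (s 0) := by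
  induction h with
  | nil u s =>
    subst hv
    exact trivial
  | test ht _ ih =>
    rw [agr_append] at hz
    have ih' := ih hv hz.2
    cases ht with
    | @noask τ τ' q q' h1 h2 h3 h4 =>
      have h5 : From M t z τ'.1 q' _ := ih'
      rw [h1] at h5
      exact from_step h2 (by rw [h3]; exact h4) h5
    | @ask τ τ' q q' p u h1 h2 h3 h4 =>
      have h5 : ans z p = u := hz.1 ((p, u), true) (List.mem_singleton.2 rfl)
      have h6 : From M t z τ'.1 q' _ := ih'
      rw [h1] at h6
      refine from_step h2 ?_ h6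
      rw [h3, Option.map_some, h5]
      exact h4
    | @fin τ q h1 h2 =>
      refine ⟨fun _ => q, fun _ => q, fun _ => _, rfl, rfl, ?_, ?_, h2⟩
      · intro i _ _
        exact Relation.ReflTransGen.refl
      · intro i hi hit
        omega
  | push i a hp _ ih =>
    have hi : i = 0 := Subsingleton.elim _ _
    subst hi
    have ih' := ih hv hz
    rw [Function.update_self] at ih'
    cases hp with
    | mk h1 => exact from_move (Mv.push h1) ih'
  | pop i a r hp hs _ ih =>
    have hi : i = 0 := Subsingleton.elim _ _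
    subst hi
    have ih' := ih hv hz
    rw [Function.update_self] at ih'
    rw [hs]
    cases hp with
    | mk h1 => exact from_move (Mv.pop h1) ih'

/-- The runs of the program are runs of the machine. -/
lemma of_run (M : LM J B U Q Λ) (T t : ℕ) (z : Inp J B U) {q₀ : Q} {s' : List Λ}
    {l : List (Tst J B U)} (h0 : M.start q₀)
    (h : R1 (prog M T t) (some (0, q₀)) [] none s' l) (hz : Agr z l) :
    ∃ x q s, M.Run t z x q s := by
  obtain ⟨x, q, s, h1, h2, h3, h4, h6⟩ := mean_of_run M T t z h rfl hz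
  refine ⟨x, q, s, ?_, h2, fun i hi => h3 i (Nat.zero_le _) hi,
    fun τ hτ => h4 τ (Nat.zero_le _) hτ, h6⟩
  have h5 : x 0 = q₀ := h1
  rw [h5]
  exact h0

end Pool.Agent.ACS
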