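import Mathlib
import Pool.Agent.ACS.Prog
import Pool.Agent.ACC.Core
import Pool.Agent.CFT.ASM
import Pool.Agent.CFT.CUT

/-!
# Machines with a stack as families of lists of tests
-/

set_option autoImplicit false

namespace Pool.Agent.ACS

open Finset Pool.Agent.TS Pool.Agent.HM
open Pool.Agent.STK (Prog Run)
open Pool.Agent.STK.ONE (R1 toFP chain_of_run mean_of_der block)
open Pool.Agent.CFT (Der Ctx Dec t_ASM t_CUT)
open Pool.Agent.ACC (write memo lastw lastw_lt writes grph recSpace recSpace_card grph_card)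

variable {J B U Q A Γ Λ : Type}

/-- The nodes of the program with forks. -/
abbrev Nf (T : ℕ) (Q : Type) : Type := Nd T Q ⊕ (Nd T Q × Nd T Q)

instance instNf (T : ℕ) (Q : Type) [Fintype Q] : Fintype (Nf T Q) := inferInstance

/-- The family given by roots: component `j` is the set of the lists of tests of the pieces with the
root `root j`. -/
def famS (M : LM J B U Q Λ) (T t : ℕ) {r : ℕ} (root : Fin r → Nf T Q) (j : Fin r)
    (l : List (Tst J B U)) : Prop :=
  (∃ q₀, M.start q₀ ∧ ∀ i : Fin r, i.1 = 0 → root i = Sum.inl (some (0, q₀))) ∧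
  Ctx (toFP (prog M T t)) (fun u => ∃ j', j < j' ∧ root j' = u) (root j) l

lemma fam_sound (M : LM J B U Q Λ) (T t : ℕ) {r : ℕ} (hr : 0 < r) (root : Fin r → Nf T Q)
    (z : Inp J B U) (h : ∀ j, ∃ l, famS M T t root j l ∧ Agr z l) : ∃ x q s, M.Run t z x q s := by
  choose ls hls using h
  obtain ⟨q₀, h0, h1⟩ := (hls ⟨0, hr⟩).1.1
  have hdec : Dec (toFP (prog M T t)) root ls := fun i => (hls i).1.2
  obtain ⟨l, h2, h3⟩ := t_ASM _ _ _ _ _ _ hdec ⟨0, hr⟩
  rw [h1 ⟨0, hr⟩ rfl] at h2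
  have h4 : ∃ s', R1 (prog M T t) (some (0, q₀)) [] (prog M T t).sink s' l :=
    mean_of_der _ h2 []
  obtain ⟨s', h4⟩ := h4
  refine of_run M T t z h0 h4 ?_
  intro x hx
  obtain ⟨j, hj⟩ := h3 x hx
  exact (hls j).2 x hj

lemma fam_complete (M : LM J B U Q Λ) (T t : ℕ) (ht : t ≤ T) (ℓ r : ℕ) (hr : 0 < r)
    (hT : T < ℓ * r) (z : Inp J B U) (x q : ℕ → Q) (s : ℕ → List Λ)
    (h : M.Run t z x q s) : ∃ root : Fin r → Nf T Q, ∃ w : Fin r → List (Tst J B U),
      (∀ j, famS M T t root j (w j) ∧ Agr z (w j) ∧ (w j).length ≤ 2 * ℓ + 1) ∧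
      ∑ j, (w j).length ≤ T := by
  obtain ⟨l, hl, hz, hlen⟩ := run_of M T t ht z x q s h t 0 (by simp)
  obtain ⟨K, rfl⟩ : ∃ K, r = K + 1 := ⟨r - 1, by omega⟩
  have h1 : Der (toFP (prog M T t)) (Sum.inl (some (0, x 0))) l := by
    have h2 := chain_of_run (prog M T t) hl rfl
    simp only [Fin.val_zero] at h2
    rw [h.2.1] at h2
    exact h2
  obtain ⟨root, ls, a1, a2, a3, a4, a5⟩ := t_CUT _ _ _ ℓ 1 K _ l (block (prog_blocks M T t)) h1
    (by omega)
  refine ⟨root, ls, fun j => ⟨⟨⟨x 0, h.1, ?_⟩, a2 j⟩, fun x hx => hz x (a5 j x hx), a3 j⟩, ?_⟩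
  · intro i hi
    have : i = 0 := Fin.ext hi
    rw [this, a1]
  · rw [a4]
    omega

section Idx

variable [Fintype A] [Fintype Γ]

/-- The indices of the families: the number of steps, the kind of the records, the roots and the
records. -/
abbrev Idx (T F r : ℕ) (Q A Γ : Type) [Fintype A] [Fintype Γ] : Type :=
  Fin (T + 1) × Bool × (Fin r → Nf T Q) × {X // X ∈ smallSets (recSpace A Γ T) F}

instance instIdx (T F r : ℕ) (Q A Γ : Type) [Fintype A] [Fintype Γ] [Fintype Q] :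
    Fintype (Idx T F r Q A Γ) := inferInstance

/-- The families of a machine with a stack and a far memory. -/
def Sf (M : FM J B U Q A Γ Λ) (T F : ℕ) {r : ℕ} (i : Idx T F r Q A Γ) (j : Fin r)
    (l : List (Tst J B U)) : Prop :=
  famS (loc M i.2.1 (dec i.2.2.2.1) i.1.1) T i.1.1 i.2.2.1 j l

lemma sf_sound (M : FM J B U Q A Γ Λ) (T F : ℕ) {r : ℕ} (hr : 0 < r) (i : Idx T F r Q A Γ)
    (z : Inp J B U) (h : ∀ j, ∃ l, Sf M T F i j l ∧ Agr z l) :
    ∃ t ≤ T, ∃ b x q s w, M.Run t z x q s w ∧ M.far b t q w ≤ F := by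
  obtain ⟨t, b, root, X, hX⟩ := i
  obtain ⟨x, q, s, h1⟩ := fam_sound _ T t.1 hr root z h
  obtain ⟨w, h2, h3⟩ := loc_sound M b (dec X) t.1 z x q s h1
  refine ⟨t.1, by omega, b, x, q, s, w, h2, ?_⟩
  rw [h3]
  exact (dec_card X t.1).trans (mem_smallSets.1 hX).2

lemma grph_rec (M : FM J B U Q A Γ Λ) (b : Bool) (t T : ℕ) (ht : t ≤ T) (q : ℕ → Q)
    (w : ℕ → Option (A × Γ)) : grph t (M.recd b q w) ⊆ recSpace A Γ T := by
  rintro ⟨τ, o, a, v⟩ h
  simp only [grph, Finset.mem_sigma, Finset.mem_range, Option.mem_toFinset, Option.mem_def] at h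
  obtain ⟨h1, h2⟩ := h
  simp only [recSpace, Finset.mem_sigma, Finset.mem_range, Finset.mem_product, Finset.mem_univ,
    and_true]
  refine ⟨by omega, ?_⟩
  rcases o with _ | σ
  · exact Finset.none_mem_insertNone
  · rw [Finset.some_mem_insertNone, Finset.mem_range]
    cases b with
    | true => simp [FM.recd] at h2
    | false =>
      simp only [FM.recd, Bool.false_eq_true, if_false, Option.map_eq_some_iff,
        Prod.mk.injEq] at h2
      obtain ⟨a', _, h3, _⟩ := h2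
      have := lastw_lt w a' τ σ h3
      omega

omit [Fintype A] [Fintype Γ] in
lemma far_eq (M : FM J B U Q A Γ Λ) (b : Bool) (t : ℕ) (q : ℕ → Q) (w : ℕ → Option (A × Γ)) :
    M.far b t q w = (grph t (M.recd b q w)).card := by
  classical
  rw [grph_card]
  cases b with
  | true =>
    simp only [FM.far, if_true, writes]
    congr 1
    ext i
    simp [FM.recd]
  | false =>
    simp only [FM.far, Bool.false_eq_true, if_false]
    congr 1
    ext i
    simp [FM.recd]

lemma sf_complete (M : FM J B U Q A Γ Λ) (T F ℓ r : ℕ) (hr : 0 < r) (hT : T < ℓ * r)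
    (z : Inp J B U) (h : ∃ t ≤ T, ∃ b x q s w, M.Run t z x q s w ∧ M.far b t q w ≤ F) :
    ∃ i : Idx T F r Q A Γ, ∃ w : Fin r → List (Tst J B U),
      (∀ j, Sf M T F i j (w j) ∧ Agr z (w j) ∧ (w j).length ≤ 2 * ℓ + 1) ∧
      ∑ j, (w j).length ≤ T := by
  obtain ⟨t, ht, b, x, q, s, w, h1, h2⟩ := h
  have h3 := loc_complete M b (dec (grph t (M.recd b q w))) t z x q s w h1
    (fun τ hτ => dec_grph t _ τ hτ)
  obtain ⟨root, v, h4, h5⟩ := fam_complete _ T t ht ℓ r hr hT z x q s h3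
  refine ⟨(⟨t, by omega⟩, b, root, ⟨grph t (M.recd b q w), mem_smallSets.2
    ⟨grph_rec M b t T ht q w, ?_⟩⟩), v, h4, h5⟩
  rw [← far_eq]
  exact h2

/-- The number of the nodes of the program with forks. -/
def nV (T q : ℕ) : ℕ := ((T + 1) * q + 1) + ((T + 1) * q + 1) * ((T + 1) * q + 1)

omit [Fintype A] [Fintype Γ] in
lemma card_Nf (T : ℕ) [Fintype Q] : Fintype.card (Nf T Q) = nV T (Fintype.card Q) := by
  simp only [Nf, Nd, Fintype.card_sum, Fintype.card_prod, Fintype.card_option, Fintype.card_fin,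
    nV]

lemma card_Idx (T F r : ℕ) [Fintype Q] :
    (Fintype.card (Idx T F r Q A Γ) : ℝ) ≤ 2 * (T + 1) *
      ((nV T (Fintype.card Q) : ℝ) ^ r *
      (T * ((T + 1) * (Fintype.card A * Fintype.card Γ)) + 1 : ℝ) ^ F) := by
  classical
  have h1 : ((smallSets (recSpace A Γ T) F).card : ℝ) ≤
      (T * ((T + 1) * (Fintype.card A * Fintype.card Γ)) + 1 : ℝ) ^ F := by
    have h2 := smallSets_card (recSpace A Γ T) F
    rw [recSpace_card] at h2
    exact_mod_cast h2
  have h2 : Fintype.card (Idx T F r Q A Γ) = (T + 1) * (2 *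
      (nV T (Fintype.card Q) ^ r * (smallSets (recSpace A Γ T) F).card)) := by
    simp only [Idx, Fintype.card_prod, Fintype.card_fin, Fintype.card_bool, Fintype.card_fun,
      card_Nf, Fintype.card_coe]
  rw [h2]
  push_cast
  calc ((T : ℝ) + 1) * (2 * ((nV T (Fintype.card Q) : ℝ) ^ r *
        ((smallSets (recSpace A Γ T) F).card : ℝ))) = 2 * (T + 1) *
        ((nV T (Fintype.card Q) : ℝ) ^ r *
        ((smallSets (recSpace A Γ T) F).card : ℝ)) := by ring
    _ ≤ _ := by gcongr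

end Idx

end Pool.Agent.ACS
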