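import Mathlib
import Pool.Agent.ACS.Fam

/-!
# The inequality forced by families that accept exactly the triangle-free inputs
-/

set_option autoImplicit false

namespace Pool.Agent.ACS

open Finset Equiv Pool.Agent.TS Pool.Agent.HM
open Pool.Agent.RAC (Simp Sparse edg ES)

section Deg

variable {J B U C : Type} [Fintype J] [Fintype B] [Fintype U] [Fintype C]

lemma fin_row (σ : C → Perm B) (adj : U → U → Prop) (d1 : ℕ)
    (hd : ∀ x, ∀ [DecidablePred fun y => adj x y],
      ((Finset.univ : Finset U).filter fun y => adj x y).card ≤ d1)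
    (π : J × B → Perm U) (κ : J × B) (u : U) [DecidablePred (forb (ES σ adj) π κ u)] :
    (Finset.univ.filter fun v => forb (ES σ adj) π κ u v).card ≤ Fintype.card C * d1 := by
  classical
  have h1 : (Finset.univ.filter fun v => forb (ES σ adj) π κ u v) ⊆
      (Finset.univ : Finset C).biUnion fun c =>
        Finset.univ.filter fun v => adj (π (κ.1, (σ c).symm κ.2) u) v := by
    intro v hv
    obtain ⟨b, c, hc, hb⟩ := (Finset.mem_filter.1 hv).2
    rw [Finset.mem_biUnion]
    refine ⟨c, Finset.mem_univ _, ?_⟩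
    rw [Finset.mem_filter]
    refine ⟨Finset.mem_univ _, ?_⟩
    have hbb : (σ c).symm κ.2 = b := by
      have hc' : κ.2 = σ c b := hc
      rw [hc', Equiv.symm_apply_apply]
    rw [hbb]
    exact hb
  refine (Finset.card_le_card h1).trans (Finset.card_biUnion_le.trans ?_)
  refine (Finset.sum_le_sum fun c _ => hd (π (κ.1, (σ c).symm κ.2) u)).trans (le_of_eq ?_)
  simp

lemma fin_col (σ : C → Perm B) (adj : U → U → Prop) (d1 : ℕ)
    (hd : ∀ y, ∀ [DecidablePred fun x => adj x y],
      ((Finset.univ : Finset U).filter fun x => adj x y).card ≤ d1)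
    (π : J × B → Perm U) (κ : J × B) (v : U)
    [DecidablePred fun u => forb (ES σ adj) π κ u v] :
    (Finset.univ.filter fun u => forb (ES σ adj) π κ u v).card ≤ Fintype.card C * d1 := by
  classical
  have h1 : (Finset.univ.filter fun u => forb (ES σ adj) π κ u v) ⊆
      (Finset.univ : Finset C).biUnion fun c =>
        (Finset.univ.filter fun x => adj x v).image
          fun x => (π (κ.1, (σ c).symm κ.2)).symm x := by
    intro u hu
    obtain ⟨b, c, hc, hb⟩ := (Finset.mem_filter.1 hu).2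
    rw [Finset.mem_biUnion]
    refine ⟨c, Finset.mem_univ _, ?_⟩
    rw [Finset.mem_image]
    have hbb : (σ c).symm κ.2 = b := by
      have hc' : κ.2 = σ c b := hc
      rw [hc', Equiv.symm_apply_apply]
    refine ⟨π (κ.1, b) u, ?_, ?_⟩
    · rw [Finset.mem_filter]
      exact ⟨Finset.mem_univ _, hb⟩
    · rw [hbb, Equiv.symm_apply_apply]
  refine (Finset.card_le_card h1).trans (Finset.card_biUnion_le.trans ?_)
  refine (Finset.sum_le_sum fun c _ => Finset.card_image_le.trans (hd v)).trans (le_of_eq ?_)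
  simp

end Deg

theorem fam_ine {J B U C I : Type} [Fintype J] [Fintype B] [Fintype U] [DecidableEq J]
    [DecidableEq B] [DecidableEq U] [Fintype C] [DecidableEq C] [Fintype I]
    (σ : C → Perm B) (adj : U → U → Prop) (ν h : ℝ) (M0 L r T m d1 : ℕ)
    (S : I → Fin r → List (Tst J B U) → Prop)
    (hdc : ∀ y, ∀ [DecidablePred fun x => adj x y],
      ((Finset.univ : Finset U).filter fun x => adj x y).card ≤ d1)
    (hdr : ∀ x, ∀ [DecidablePred fun y => adj x y],
      ((Finset.univ : Finset U).filter fun y => adj x y).card ≤ d1)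
    (h2D : 2 * (Fintype.card C * d1) ≤ Fintype.card U)
    (hSp : Sparse σ M0) (hML : M0 * L ≤ Fintype.card B) (hν : 0 < ν) (hh : 1 ≤ h)
    (h64 : 64 * h ^ 2 * ν ≤ 1)
    (hmix : ∀ P L : Finset U, (∀ x ∈ P, ∀ y ∈ L, ¬ adj x y) →
      (P.card : ℝ) * L.card ≤ ν * (Fintype.card U) ^ 2)
    (hC : 8 * h * Real.logb 2 h ≤ Fintype.card C) (hC0 : 0 < Fintype.card C)
    (htot : (T : ℝ) ≤ Fintype.card (J × U) * Fintype.card B * Real.logb 2 h)
    (hm : m = ⌈(Fintype.card (J × U) * Fintype.card B : ℝ) / (2 * h)⌉₊)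
    (hS : ∀ i, ∀ z : Inp J B U, (∀ j, ∃ l, S i j l ∧ Agr z l) → TFree (ES σ adj) z.1 z.2)
    (hcov : ∀ z : Inp J B U, TFree (ES σ adj) z.1 z.2 → ∃ i, ∃ w : Fin r → List (Tst J B U),
      (∀ j, S i j (w j) ∧ Agr z (w j) ∧ (w j).length ≤ L) ∧ ∑ j, (w j).length ≤ T) :
    (1 : ℝ) ≤ (Fintype.card U : ℝ) ^ (2 * (Fintype.card C * d1) * Fintype.card (J × B)) *
      (Fintype.card I * (2 ^ r * Fintype.card C *
      ((Fintype.card ((J × U) × B)).choose m : ℝ) *
      Real.exp (2 * m + m / 2 * Real.log (64 * h ^ 2 * ν)))) := by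
  classical
  set X : ℝ := 2 ^ r * Fintype.card C * ((Fintype.card ((J × U) × B)).choose m : ℝ) *
      Real.exp (2 * m + m / 2 * Real.log (64 * h ^ 2 * ν)) with hX
  set A : I → Finset (Inp J B U) := fun i => Finset.univ.filter fun z =>
    ∃ w : Fin r → List (Tst J B U), (∀ j, S i j (w j) ∧ Agr z (w j) ∧ (w j).length ≤ L) ∧
      ∑ j, (w j).length ≤ T with hAdef
  have h3 : ∀ i ∈ (Finset.univ : Finset I),
      ((A i).card : ℝ) ≤ X * Fintype.card (Inp J B U) := by
    intro i _
    have h4 := fam_cnt σ adj ν h M0 L r T m (S i) (A i) hSp hML hν hh h64 hmix hC hC0 htot hm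
      (hS i) (fun z hz => (Finset.mem_filter.1 hz).2)
    refine h4.trans (le_of_eq ?_)
    rw [hX]
    ring
  have h4 : tfSet J (ES σ adj) ⊆ (Finset.univ : Finset I).biUnion A := by
    intro z hz
    rw [mem_tfSet] at hz
    obtain ⟨i, hi⟩ := hcov z hz
    rw [Finset.mem_biUnion]
    exact ⟨i, Finset.mem_univ _, Finset.mem_filter.2 ⟨Finset.mem_univ _, hi⟩⟩
  have h5 : ((tfSet J (ES σ adj)).card : ℝ) ≤
      Fintype.card I * (X * Fintype.card (Inp J B U)) := by
    calc ((tfSet J (ES σ adj)).card : ℝ) ≤ (((Finset.univ : Finset I).biUnion A).card : ℝ) := by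
          exact_mod_cast Finset.card_le_card h4
      _ ≤ ∑ i ∈ (Finset.univ : Finset I), ((A i).card : ℝ) := by
          exact_mod_cast Finset.card_biUnion_le
      _ ≤ ∑ _i ∈ (Finset.univ : Finset I), X * Fintype.card (Inp J B U) :=
          Finset.sum_le_sum h3
      _ = _ := by rw [Finset.sum_const, nsmul_eq_mul, Finset.card_univ]
  have h6 : (Fintype.card (Inp J B U) : ℝ) ≤
      (Fintype.card U : ℝ) ^ (2 * (Fintype.card C * d1) * Fintype.card (J × B)) *
        (tfSet J (ES σ adj)).card := by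
    exact_mod_cast tf_count (ES σ adj) (Fintype.card C * d1)
      (fun π κ u _ => fin_row σ adj d1 hdr π κ u) (fun π κ v _ => fin_col σ adj d1 hdc π κ v) h2D
  have hI : (0 : ℝ) < Fintype.card (Inp J B U) := by exact_mod_cast Fintype.card_pos
  have h7 : (Fintype.card (Inp J B U) : ℝ) * 1 ≤ Fintype.card (Inp J B U) *
      ((Fintype.card U : ℝ) ^ (2 * (Fintype.card C * d1) * Fintype.card (J × B)) *
        (Fintype.card I * X)) := by
    calc (Fintype.card (Inp J B U) : ℝ) * 1 = Fintype.card (Inp J B U) := mul_one _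
      _ ≤ _ := h6
      _ ≤ (Fintype.card U : ℝ) ^ (2 * (Fintype.card C * d1) * Fintype.card (J × B)) *
          (Fintype.card I * (X * Fintype.card (Inp J B U))) :=
          mul_le_mul_of_nonneg_left h5 (by positivity)
      _ = _ := by ring
  exact le_of_mul_le_mul_left h7 hI

end Pool.Agent.ACS
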