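import Mathlib
import Pool.Agent.ACS.Ine

/-!
# Families accepting exactly the triangle-free inputs: the numerical part
-/

set_option autoImplicit false

namespace Pool.Agent.ACS

open Finset Equiv Pool.Agent.TS
open Pool.Agent.RAC (Simp Sparse edg ES)
open Pool.Agent.ACC (Pt inc card_lines inc_count card_le_exp' logb_le_self')

lemma num_cols {p : ℕ} [Fact p.Prime] (y : Pt p) [DecidablePred fun x : Pt p => inc x y] :
    ((Finset.univ : Finset (Pt p)).filter fun x => inc x y).card ≤ p := by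
  classical
  have h1 : ((Finset.univ : Finset (Pt p)).filter fun x => inc x y) ⊆
      (Finset.univ : Finset (ZMod p)).image fun a => (a, y.1 * a + y.2) := by
    intro x hx
    have h2 : x.2 = y.1 * x.1 + y.2 := (Finset.mem_filter.1 hx).2
    rw [Finset.mem_image]
    exact ⟨x.1, Finset.mem_univ _, Prod.ext rfl h2.symm⟩
  refine (Finset.card_le_card h1).trans (Finset.card_image_le.trans (le_of_eq ?_))
  rw [Finset.card_univ, ZMod.card]

lemma num_rows {p : ℕ} [Fact p.Prime] (x : Pt p) [DecidablePred fun y : Pt p => inc x y] :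
    ((Finset.univ : Finset (Pt p)).filter fun y => inc x y).card ≤ p := by
  refine (le_of_eq ?_).trans (le_of_eq (card_lines x))
  congr 1
  ext y
  simp

set_option maxHeartbeats 4000000 in
/-- Families with few members that accept exactly the triangle-free inputs need many tests. -/
theorem fam_num (t m0 D p : ℕ) [NeZero D] [Fact p.Prime] (σ : ZMod D → Perm (Fin m0 × ZMod D))
    (h : ℝ) (L r T : ℕ) (I : Type) [Fintype I]
    (S : I → Fin r → List (Tst (Fin t) (Fin m0 × ZMod D) (Pt p)) → Prop) (ht : 0 < t)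
    (hm0 : 0 < m0) (hSp : Sparse σ (3 * D ^ 4)) (hh : 1 ≤ h) (hD : 16 * h ^ 2 ≤ D)
    (hp : 2 ^ 24 * h ^ 6 ≤ (p : ℝ)) (hhD : 256 * h * D ≤ p)
    (hLd : 3 * D ^ 4 * L ≤ m0 * D)
    (hT : (T : ℝ) ≤ (t * (m0 * D) * p ^ 2) * Real.logb 2 h)
    (hI : (Fintype.card I : ℝ) * 2 ^ r ≤
      Real.exp (5 / 2 * ((t * (m0 * D) * p ^ 2) * Real.log p / (64 * h))))
    (hS : ∀ i, ∀ z : Inp (Fin t) (Fin m0 × ZMod D) (Pt p), (∀ j, ∃ l, S i j l ∧ Agr z l) →
      TFree (ES σ inc) z.1 z.2)
    (hcov : ∀ z : Inp (Fin t) (Fin m0 × ZMod D) (Pt p), TFree (ES σ inc) z.1 z.2 →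
      ∃ i, ∃ w : Fin r → List (Tst (Fin t) (Fin m0 × ZMod D) (Pt p)),
      (∀ j, S i j (w j) ∧ Agr z (w j) ∧ (w j).length ≤ L) ∧ ∑ j, (w j).length ≤ T) : False := by
  classical
  have hh0 : (0 : ℝ) < h := by linarith
  have htR : (1 : ℝ) ≤ t := by exact_mod_cast ht
  have ht0 : (0 : ℝ) < t := by linarith
  have hh2 : (1 : ℝ) ≤ h ^ 2 := one_le_pow₀ hh
  have hDN : 0 < D := Nat.pos_of_ne_zero (NeZero.ne D)
  have hD1 : (1 : ℝ) ≤ D := by exact_mod_cast hDN
  have hD0 : (0 : ℝ) < D := by linarith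
  have hp24 : (2 : ℝ) ^ 24 * h ≤ p := by
    refine le_trans ?_ hp
    exact mul_le_mul_of_nonneg_left (le_self_pow₀ hh (by norm_num)) (by positivity)
  have hp0 : (0 : ℝ) < p := lt_of_lt_of_le (by positivity) hp
  have hp1 : (1 : ℝ) ≤ p := by
    refine le_trans ?_ hp24
    linarith
  have hpN : 0 < p := by exact_mod_cast hp0
  -- the block size
  obtain ⟨d, hd⟩ : ∃ d : ℝ, d = m0 * D := ⟨_, rfl⟩
  rw [← hd] at hT hI
  have hd1 : (1 : ℝ) ≤ d := by
    rw [hd]
    exact one_le_mul_of_one_le_of_one_le (by exact_mod_cast hm0) hD1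
  have hd0 : (0 : ℝ) < d := by linarith
  have hcU : Fintype.card (Pt p) = p ^ 2 := by
    rw [Fintype.card_prod, ZMod.card, sq]
  have hcB : Fintype.card (Fin m0 × ZMod D) = m0 * D := by
    rw [Fintype.card_prod, Fintype.card_fin, ZMod.card]
  have hcC : Fintype.card (ZMod D) = D := ZMod.card D
  -- the logarithm of p
  obtain ⟨lp, hlp⟩ : ∃ lp : ℝ, lp = Real.log p := ⟨_, rfl⟩
  have hlogh : 0 ≤ Real.log h := Real.log_nonneg hh
  have hl2 : (0.69 : ℝ) ≤ Real.log 2 := by
    have := Real.log_two_gt_d9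
    linarith
  have hl2' : Real.log 2 ≤ 0.7 := by
    have := Real.log_two_lt_d9
    linarith
  have hlpge : 24 * Real.log 2 + 6 * Real.log h ≤ lp := by
    rw [hlp]
    have h1 := Real.log_le_log (by positivity) hp
    rw [Real.log_mul (by positivity) (by positivity), Real.log_pow, Real.log_pow] at h1
    push_cast at h1
    linarith
  have hlp1 : 1 ≤ lp := by linarith
  have hlp0 : 0 < lp := by linarith
  -- the number y of entries
  obtain ⟨y, hy⟩ : ∃ y : ℝ, y = t * d * p ^ 2 := ⟨_, rfl⟩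
  have hy0 : 0 < y := by rw [hy]; positivity
  rw [← hy] at hT hI
  have hdy : d * p ^ 2 ≤ y := by
    rw [hy]
    calc d * (p : ℝ) ^ 2 = 1 * (d * (p : ℝ) ^ 2) := by ring
      _ ≤ (t : ℝ) * (d * (p : ℝ) ^ 2) := mul_le_mul_of_nonneg_right htR (by positivity)
      _ = (t : ℝ) * d * p ^ 2 := by ring
  have hpy2 : (p : ℝ) ^ 2 ≤ y := by
    refine le_trans ?_ hdy
    exact le_mul_of_one_le_left (by positivity) hd1
  have hpp : (p : ℝ) ≤ p ^ 2 := le_self_pow₀ hp1 (by norm_num)
  have hpy : (p : ℝ) ≤ y := hpp.trans hpy2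
  have hhy : (2 : ℝ) ^ 24 * h ≤ y := hp24.trans hpy
  -- the budget
  obtain ⟨bu, hbu⟩ : ∃ bu : ℝ, bu = y * lp / (64 * h) := ⟨_, rfl⟩
  have hbu0 : 0 < bu := by rw [hbu]; positivity
  rw [← hlp, ← hbu] at hI
  have hML : 3 * D ^ 4 * L ≤ Fintype.card (Fin m0 × ZMod D) := by
    rw [hcB]
    exact hLd
  -- parameters
  have hν0 : (0 : ℝ) < 1 / p := by positivity
  have h64 : 64 * h ^ 2 * (1 / (p : ℝ)) ≤ 1 := by
    rw [mul_one_div, div_le_one hp0]
    refine le_trans ?_ hp
    have h1 : h ^ 2 ≤ h ^ 6 := pow_le_pow_right₀ hh (by norm_num)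
    calc 64 * h ^ 2 ≤ 2 ^ 24 * h ^ 2 := mul_le_mul_of_nonneg_right (by norm_num) (by positivity)
      _ ≤ 2 ^ 24 * h ^ 6 := mul_le_mul_of_nonneg_left h1 (by positivity)
  have hlog64 : Real.log (64 * h ^ 2 * (1 / (p : ℝ))) = 6 * Real.log 2 + 2 * Real.log h - lp := by
    rw [mul_one_div, Real.log_div (by positivity) hp0.ne', Real.log_mul (by norm_num)
      (by positivity), show (64 : ℝ) = 2 ^ 6 by norm_num, Real.log_pow, Real.log_pow, ← hlp]
    push_cast
    ring
  have hlog2h : Real.log (2 * h) = Real.log 2 + Real.log h :=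
    Real.log_mul (by norm_num) hh0.ne'
  have cI : Fintype.card (Fin t × Pt p) = t * p ^ 2 := by
    rw [Fintype.card_prod, Fintype.card_fin, hcU]
  have cK : Fintype.card (Fin t × (Fin m0 × ZMod D)) = t * (m0 * D) := by
    rw [Fintype.card_prod, Fintype.card_fin, hcB]
  have cE : Fintype.card ((Fin t × Pt p) × (Fin m0 × ZMod D)) = t * p ^ 2 * (m0 * D) := by
    rw [Fintype.card_prod, cI, hcB]
  have cIB : (Fintype.card (Fin t × Pt p) : ℝ) * Fintype.card (Fin m0 × ZMod D) = y := by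
    rw [cI, hcB, hy, hd]
    push_cast
    ring
  obtain ⟨m, hm⟩ : ∃ m, m = ⌈((Fintype.card (Fin t × Pt p) : ℝ) *
    Fintype.card (Fin m0 × ZMod D)) / (2 * h)⌉₊ := ⟨_, rfl⟩
  obtain ⟨mm, hmm⟩ : ∃ mm : ℝ, mm = (m : ℝ) := ⟨_, rfl⟩
  have hymm : y ≤ (2 * h) * mm := by
    have h1 := Nat.le_ceil (((Fintype.card (Fin t × Pt p) : ℝ) *
      Fintype.card (Fin m0 × ZMod D)) / (2 * h))
    rw [← hm, cIB, div_le_iff₀ (by positivity), ← hmm] at h1
    linarith
  have hmm0 : 0 < mm := by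
    by_contra hcon
    push Not at hcon
    have h1 : (2 * h) * mm ≤ 0 := mul_nonpos_of_nonneg_of_nonpos (by positivity) hcon
    linarith
  have htot : (T : ℝ) ≤ Fintype.card (Fin t × Pt p) * Fintype.card (Fin m0 × ZMod D) *
      Real.logb 2 h := by
    rw [cIB]
    exact hT
  have hlogbD : 8 * h * Real.logb 2 h ≤ Fintype.card (ZMod D) := by
    rw [hcC]
    refine le_trans ?_ hD
    have h1 := mul_le_mul_of_nonneg_left (logb_le_self' hh0) (show 0 ≤ 8 * h by positivity)
    refine h1.trans (le_of_eq ?_)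
    ring
  have hhDN : 2 * (Fintype.card (ZMod D) * p) ≤ Fintype.card (Pt p) := by
    rw [hcC, hcU, sq, ← mul_assoc]
    apply Nat.mul_le_mul_right
    have h1 : 2 * (D : ℝ) ≤ p := by
      refine le_trans ?_ hhD
      have h2 : (D : ℝ) ≤ h * D := le_mul_of_one_le_left hD0.le hh
      linarith
    exact_mod_cast h1
  have key := fam_ine σ inc (1 / (p : ℝ)) h (3 * D ^ 4) L r T m p S (fun y _ => num_cols y)
    (fun x _ => num_rows x) hhDN hSp hML hν0 hh h64 (by
      intro V W hVW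
      refine (inc_count V W hVW).trans (le_of_eq ?_)
      rw [hcU]
      push_cast
      field_simp) hlogbD (by rw [hcC]; exact hDN) htot hm hS hcov
  rw [cE, cK, hcU, hcC, ← hmm, hlog64] at key
  -- bounds of the factors
  have e1 : ((p ^ 2 : ℕ) : ℝ) ^ (2 * (D * p) * (t * (m0 * D))) ≤ Real.exp bu := by
    have h1 : ((p ^ 2 : ℕ) : ℝ) ^ (2 * (D * p) * (t * (m0 * D))) =
        Real.exp (((2 * (D * p) * (t * (m0 * D)) : ℕ) : ℝ) * (2 * lp)) := by
      rw [Real.exp_nat_mul, hlp]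
      congr 1
      rw [two_mul, Real.exp_add, Real.exp_log hp0]
      push_cast
      ring
    rw [h1]
    apply Real.exp_le_exp.2
    rw [hbu]
    push_cast
    rw [← hd, le_div_iff₀ (by positivity)]
    calc 2 * ((D : ℝ) * p) * (t * d) * (2 * lp) * (64 * h)
        = ((t : ℝ) * d * p) * lp * (256 * h * D) := by ring
      _ ≤ ((t : ℝ) * d * p) * lp * p := by gcongr
      _ = y * lp := by rw [hy]; ring
  have e6 : (D : ℝ) ≤ Real.exp (bu / 2) := by
    have h1 : (D : ℝ) ≤ p := by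
      refine le_trans ?_ hhD
      have h2 : (D : ℝ) ≤ h * D := le_mul_of_one_le_left hD0.le hh
      linarith
    calc (D : ℝ) ≤ p := h1
      _ = Real.exp lp := by rw [hlp, Real.exp_log hp0]
      _ ≤ Real.exp (bu / 2) := by
          apply Real.exp_le_exp.2
          rw [hbu, div_div, le_div_iff₀ (by positivity)]
          have h3 : 64 * h * 2 ≤ y := by
            refine le_trans ?_ hhy
            linarith
          calc lp * (64 * h * 2) ≤ lp * y := mul_le_mul_of_nonneg_left h3 hlp0.le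
            _ = y * lp := mul_comm _ _
  have e5 : ((t * p ^ 2 * (m0 * D)).choose m : ℝ) ≤ Real.exp (mm + mm * Real.log (2 * h)) := by
    have h1 := choose_le_exp (t * p ^ 2 * (m0 * D)) m (2 * h) (by positivity)
      (by rw [← hmm]; push_cast; refine le_trans (le_of_eq ?_) hymm; rw [hy, hd]; ring)
    rw [← hmm] at h1
    exact h1
  have hprod : ((p ^ 2 : ℕ) : ℝ) ^ (2 * (D * p) * (t * (m0 * D))) * (Fintype.card I *
      (2 ^ r * D * ((t * p ^ 2 * (m0 * D)).choose m : ℝ) *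
      Real.exp (2 * mm + mm / 2 * (6 * Real.log 2 + 2 * Real.log h - lp)))) ≤
      Real.exp bu * (Real.exp (5 / 2 * bu) * (Real.exp (bu / 2) *
        Real.exp (mm + mm * Real.log (2 * h)) *
          Real.exp (2 * mm + mm / 2 * (6 * Real.log 2 + 2 * Real.log h - lp)))) := by
    calc _ = ((p ^ 2 : ℕ) : ℝ) ^ (2 * (D * p) * (t * (m0 * D))) * ((Fintype.card I * 2 ^ r) *
          (D * ((t * p ^ 2 * (m0 * D)).choose m : ℝ) *
          Real.exp (2 * mm + mm / 2 * (6 * Real.log 2 + 2 * Real.log h - lp)))) := by ring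
      _ ≤ _ := by gcongr
  have hfin := key.trans hprod
  rw [← Real.exp_add, ← Real.exp_add, ← Real.exp_add, ← Real.exp_add,
    Real.one_le_exp_iff] at hfin
  have hexp : bu + (5 / 2 * bu + (bu / 2 + (mm + mm * Real.log (2 * h)) +
      (2 * mm + mm / 2 * (6 * Real.log 2 + 2 * Real.log h - lp)))) =
      4 * bu + mm * (3 + 4 * Real.log 2 + 2 * Real.log h - lp / 2) := by
    rw [hlog2h]; ring
  rw [hexp] at hfin
  have h1 : 3 + 4 * Real.log 2 + 2 * Real.log h - lp / 2 < -(lp / 8) := by linarith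
  have h2 := mul_lt_mul_of_pos_left h1 hmm0
  have h3 : 4 * bu ≤ mm * (lp / 8) := by
    rw [hbu]
    have h4 : y * lp / (64 * h) ≤ (2 * h) * mm * lp / (64 * h) := by
      gcongr
    have h5 : (2 * h) * mm * lp / (64 * h) = mm * lp / 32 := by
      field_simp; norm_num
    rw [h5] at h4
    linarith
  linarith

end Pool.Agent.ACS
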