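import Mathlib
import Pool.Agent.ACS.Num
import Pool.Agent.ACS.Cov

/-!
# No machine with a stack and few far accesses: the numerical part
-/

set_option autoImplicit false

namespace Pool.Agent.ACS

open Finset Equiv Pool.Agent.TS
open Pool.Agent.RAC (Simp Sparse edg ES)
open Pool.Agent.ACC (Pt inc card_lines inc_count card_le_exp' logb_le_self')

/-- The number of possible records of a far access. -/
lemma num_rec {T cA cG : ℕ} {G y : ℝ} (hG1 : 1 ≤ G) (hy0 : 0 < y) (hy : Real.log y ≤ G)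
    (hT : (T : ℝ) ≤ y ^ 2) (hA : Real.log cA ≤ G) (hG : Real.log cG ≤ G) :
    (T * ((T + 1) * (cA * cG)) + 1 : ℝ) ≤ Real.exp (8 * G) := by
  have h1 := card_le_exp' hA
  have h2 := card_le_exp' hG
  have hyE : y ≤ Real.exp G := by
    calc y = Real.exp (Real.log y) := (Real.exp_log hy0).symm
      _ ≤ _ := Real.exp_le_exp.2 hy
  have h3 : y ^ 2 ≤ Real.exp (2 * G) := by
    calc y ^ 2 ≤ (Real.exp G) ^ 2 := pow_le_pow_left₀ hy0.le hyE 2
      _ = Real.exp (2 * G) := by rw [← Real.exp_nat_mul]; norm_num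
  have h4 : (T : ℝ) ≤ Real.exp (2 * G) := hT.trans h3
  have h5 : (3 : ℝ) ≤ Real.exp (2 * G) := by
    have := Real.add_one_le_exp (2 * G)
    linarith
  have h7 : (cA : ℝ) * cG ≤ Real.exp (2 * G) := by
    calc (cA : ℝ) * cG ≤ Real.exp G * Real.exp G := by gcongr
      _ = Real.exp (2 * G) := by rw [← Real.exp_add]; ring_nf
  obtain ⟨E, hE⟩ : ∃ E : ℝ, E = Real.exp (2 * G) := ⟨_, rfl⟩
  rw [← hE] at h4 h5 h7
  have h8 : Real.exp (8 * G) = E ^ 4 := by
    rw [hE, ← Real.exp_nat_mul]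
    ring_nf
  rw [h8]
  have hE0 : 0 < E := by linarith
  have h9 : (T : ℝ) * ((T + 1) * (cA * cG)) ≤ E * ((E + 1) * E) := by gcongr
  nlinarith [mul_pos hE0 hE0, mul_pos (mul_pos hE0 hE0) hE0, mul_le_mul_of_nonneg_left h5 hE0.le,
    mul_le_mul_of_nonneg_left h5 (mul_pos hE0 hE0).le,
    mul_le_mul_of_nonneg_left h5 (mul_pos (mul_pos hE0 hE0) hE0).le]

/-- The logarithm of the number of nodes. -/
lemma num_nodes {T q : ℕ} {y : ℝ} (hy : 8 ≤ y) (hT : (T : ℝ) + 1 ≤ y ^ 2) :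
    0 < nV T q ∧ Real.log (nV T q) ≤ 2 * Real.log q + 5 * Real.log y := by
  have hy0 : 0 < y := by linarith
  obtain ⟨qq, hqq⟩ : ∃ qq : ℝ, qq = max (q : ℝ) 1 := ⟨_, rfl⟩
  have hq1 : 1 ≤ qq := by rw [hqq]; exact le_max_right _ _
  have hqq0 : 0 < qq := by linarith
  have hqle : (q : ℝ) ≤ qq := by rw [hqq]; exact le_max_left _ _
  have hlog : Real.log qq = Real.log q := by
    rcases Nat.eq_zero_or_pos q with h0 | h0
    · rw [hqq, h0]
      simp
    · rw [hqq, max_eq_left (by exact_mod_cast h0)]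
  obtain ⟨n', hn'⟩ : ∃ n' : ℕ, n' = (T + 1) * q + 1 := ⟨_, rfl⟩
  have hnV : nV T q = n' + n' * n' := by rw [nV, hn']
  have hn1 : 1 ≤ n' := by rw [hn']; omega
  have hn1R : (1 : ℝ) ≤ n' := by exact_mod_cast hn1
  have h1 : (n' : ℝ) ≤ 2 * (y ^ 2 * qq) := by
    have h2 : (n' : ℝ) = (T + 1) * q + 1 := by
      rw [hn']; push_cast; ring
    have h4 : ((T : ℝ) + 1) * q ≤ y ^ 2 * qq := by gcongr
    have h5 : (1 : ℝ) ≤ y ^ 2 * qq :=
      one_le_mul_of_one_le_of_one_le (one_le_pow₀ (by linarith)) hq1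
    rw [h2]
    linarith
  refine ⟨by rw [hnV]; omega, ?_⟩
  have h6 : (nV T q : ℝ) ≤ y ^ 5 * qq ^ 2 := by
    rw [hnV]
    push_cast
    calc (n' : ℝ) + n' * n' ≤ n' * n' + n' * n' := by
          have : (n' : ℝ) * 1 ≤ n' * n' := mul_le_mul_of_nonneg_left hn1R (by linarith)
          linarith
      _ = 2 * (n' * n') := by ring
      _ ≤ 2 * ((2 * (y ^ 2 * qq)) * (2 * (y ^ 2 * qq))) := by gcongr
      _ = 8 * (y ^ 4 * qq ^ 2) := by ring
      _ ≤ y * (y ^ 4 * qq ^ 2) := mul_le_mul_of_nonneg_right hy (by positivity)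
      _ = _ := by ring
  have h7 : (0 : ℝ) < nV T q := by
    have : 0 < nV T q := by rw [hnV]; omega
    exact_mod_cast this
  have h8 := Real.log_le_log h7 h6
  rw [Real.log_mul (by positivity) (by positivity), Real.log_pow, Real.log_pow, hlog] at h8
  push_cast at h8
  linarith

set_option maxHeartbeats 4000000 in
theorem mach_num (t m0 D p : ℕ) [NeZero D] [Fact p.Prime]
    (σ : ZMod D → Perm (Fin m0 × ZMod D)) (h S G : ℝ)
    (F T : ℕ) (Q A Γ Λ : Type) [Fintype Q] [Fintype A] [Fintype Γ]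
    (M : FM (Fin t) (Fin m0 × ZMod D) (Pt p) Q A Γ Λ) (ht : 0 < t) (hm0 : 0 < m0)
    (hSp : Sparse σ (3 * D ^ 4)) (hh : 1 ≤ h) (hG1 : 1 ≤ G) (hD : 16 * h ^ 2 ≤ D)
    (hp : 2 ^ 24 * h ^ 6 ≤ (p : ℝ)) (hhD : 256 * h * D ≤ p)
    (hdS : 3 * (D : ℝ) ^ 4 * (2 ^ 11 * h ^ 2 * S) ≤ m0 * D)
    (hNG : Real.log (t * (m0 * D) * p ^ 2) ≤ G)
    (hF : 512 * h * G * F ≤ (t * (m0 * D) * p ^ 2) * Real.log p)
    (hQ : 6 * Real.log (Fintype.card Q) + 15 * Real.log (t * (m0 * D) * p ^ 2) ≤ S)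
    (hA : Real.log (Fintype.card A) ≤ G) (hG : Real.log (Fintype.card Γ) ≤ G)
    (hacc : ∀ z : Inp (Fin t) (Fin m0 × ZMod D) (Pt p),
      (∃ T' ≤ T, ∃ b x q s w, M.Run T' z x q s w ∧ M.far b T' q w ≤ F) ↔
        TFree (ES σ inc) z.1 z.2) :
    (t * (m0 * D) * p ^ 2 : ℝ) * Real.logb 2 h < T := by
  classical
  by_contra hcon
  push Not at hcon
  have hT := hcon
  clear hcon
  have hh0 : (0 : ℝ) < h := by linarith
  have htR : (1 : ℝ) ≤ t := by exact_mod_cast ht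
  have ht0 : (0 : ℝ) < t := by linarith
  have hh2 : (1 : ℝ) ≤ h ^ 2 := one_le_pow₀ hh
  have hDN : 0 < D := Nat.pos_of_ne_zero (NeZero.ne D)
  have hD1 : (1 : ℝ) ≤ D := by exact_mod_cast hDN
  have hD0 : (0 : ℝ) < D := by linarith
  have hp24 : (2 : ℝ) ^ 24 * h ≤ p := by
    refine le_trans ?_ hp
    exact mul_le_mul_of_nonneg_left (le_self_pow₀ hh (by norm_num)) (by positivity)
  have hp0 : (0 : ℝ) < p := lt_of_lt_of_le (by positivity) hp
  have hp1 : (1 : ℝ) ≤ p := by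
    refine le_trans ?_ hp24
    linarith
  -- the block size
  obtain ⟨d, hd⟩ : ∃ d : ℝ, d = m0 * D := ⟨_, rfl⟩
  have hd1 : (1 : ℝ) ≤ d := by
    rw [hd]
    exact one_le_mul_of_one_le_of_one_le (by exact_mod_cast hm0) hD1
  have hd0 : (0 : ℝ) < d := by linarith
  have hcU : Fintype.card (Pt p) = p ^ 2 := by
    rw [Fintype.card_prod, ZMod.card, sq]
  -- the number y of entries
  obtain ⟨y, hy⟩ : ∃ y : ℝ, y = t * (m0 * D) * p ^ 2 := ⟨_, rfl⟩
  have hyd : y = t * d * p ^ 2 := by rw [hy, hd]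
  have hy0 : 0 < y := by rw [hyd]; positivity
  have hT' := hT
  have hF' := hF
  rw [← hy] at hT hF hNG hQ
  have hdy : d * p ^ 2 ≤ y := by
    rw [hyd]
    calc d * (p : ℝ) ^ 2 = 1 * (d * (p : ℝ) ^ 2) := by ring
      _ ≤ (t : ℝ) * (d * (p : ℝ) ^ 2) := mul_le_mul_of_nonneg_right htR (by positivity)
      _ = (t : ℝ) * d * p ^ 2 := by ring
  have hpy2 : (p : ℝ) ^ 2 ≤ y := by
    refine le_trans ?_ hdy
    exact le_mul_of_one_le_left (by positivity) hd1
  have hpp : (p : ℝ) ≤ p ^ 2 := le_self_pow₀ hp1 (by norm_num)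
  have hpy : (p : ℝ) ≤ y := hpp.trans hpy2
  have hdley : d ≤ y := by
    refine le_trans ?_ hdy
    exact le_mul_of_one_le_right hd0.le (one_le_pow₀ hp1)
  have hhy : (2 : ℝ) ^ 24 * h ≤ y := hp24.trans hpy
  have hy1 : 1 ≤ y := hp1.trans hpy
  have hy24 : (2 : ℝ) ^ 24 ≤ y := by
    refine le_trans ?_ hhy
    linarith
  have hlogy : 3 ≤ Real.log y := by
    rw [Real.le_log_iff_exp_le hy0]
    refine le_trans ?_ hy24
    have h1 : Real.exp 3 = Real.exp 1 ^ 3 := by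
      rw [← Real.exp_nat_mul]; norm_num
    rw [h1]
    have h2 := Real.exp_one_lt_d9
    have h3 : Real.exp 1 ^ 3 ≤ 2.7182818286 ^ 3 :=
      pow_le_pow_left₀ (Real.exp_pos 1).le h2.le 3
    refine h3.trans ?_
    norm_num
  -- the logarithm of p
  obtain ⟨lp, hlp⟩ : ∃ lp : ℝ, lp = Real.log p := ⟨_, rfl⟩
  have hlogh : 0 ≤ Real.log h := Real.log_nonneg hh
  have hl2 : (0.69 : ℝ) ≤ Real.log 2 := by
    have := Real.log_two_gt_d9
    linarith
  have hlpge : 24 * Real.log 2 + 6 * Real.log h ≤ lp := by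
    rw [hlp]
    have h1 := Real.log_le_log (by positivity) hp
    rw [Real.log_mul (by positivity) (by positivity), Real.log_pow, Real.log_pow] at h1
    push_cast at h1
    linarith
  have hlp1 : 1 ≤ lp := by linarith
  have hlp0 : 0 < lp := by linarith
  -- the budget
  obtain ⟨bu, hbu⟩ : ∃ bu : ℝ, bu = y * lp / (64 * h) := ⟨_, rfl⟩
  have hbu0 : 0 < bu := by rw [hbu]; positivity
  -- time
  have hT2 : (T : ℝ) ≤ 2 * (h * y) := by
    refine hT.trans ?_
    have := mul_le_mul_of_nonneg_left (logb_le_self' hh0) hy0.le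
    linarith
  have hT1y : (T : ℝ) + 1 ≤ y ^ 2 := by
    have h1 : 1 ≤ h * y := one_le_mul_of_one_le_of_one_le hh hy1
    have h3 : 3 * h ≤ y := by
      refine le_trans ?_ hhy
      exact mul_le_mul_of_nonneg_right (by norm_num) hh0.le
    calc (T : ℝ) + 1 ≤ 3 * (h * y) := by linarith
      _ = (3 * h) * y := by ring
      _ ≤ y * y := mul_le_mul_of_nonneg_right h3 hy0.le
      _ = y ^ 2 := by ring
  -- the number of nodes
  obtain ⟨hV0, hV⟩ := num_nodes (T := T) (q := Fintype.card Q)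
    (y := y) (le_trans (by norm_num) hy24) hT1y
  have hlQ0 : 0 ≤ Real.log (Fintype.card Q) := Real.log_natCast_nonneg _
  obtain ⟨S', hS'⟩ : ∃ S' : ℝ, S' = S / 3 := ⟨_, rfl⟩
  have hVS : Real.log (nV T (Fintype.card Q)) ≤ S' := by
    rw [hS']
    linarith
  have hS1 : 1 ≤ S' := by
    rw [hS']
    linarith
  have hS0 : 0 < S' := by linarith
  have hhS : (1 : ℝ) ≤ h ^ 2 * S' := one_le_mul_of_one_le_of_one_le hh2 hS1
  -- the pieces
  obtain ⟨L, hL⟩ : ∃ L : ℕ, L = ⌈2 ^ 10 * h ^ 2 * S'⌉₊ := ⟨_, rfl⟩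
  have hLge : 2 ^ 10 * h ^ 2 * S' ≤ L := by rw [hL]; exact Nat.le_ceil _
  have hLR0 : (0 : ℝ) < L := lt_of_lt_of_le (by positivity) hLge
  have hL0 : 0 < L := by exact_mod_cast hLR0
  have hLle : (L : ℝ) ≤ 2 ^ 11 * h ^ 2 * S' := by
    have h1 := Nat.ceil_lt_add_one (show 0 ≤ 2 ^ 10 * h ^ 2 * S' by positivity)
    rw [← hL] at h1
    have h2 : 2 ^ 11 * h ^ 2 * S' = 2 ^ 10 * h ^ 2 * S' + 2 ^ 10 * (h ^ 2 * S') := by ring
    rw [h2]
    linarith
  have hLd : 3 * (D : ℝ) ^ 4 * (2 * L + 1) ≤ m0 * D := by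
    refine le_trans ?_ hdS
    apply mul_le_mul_of_nonneg_left _ (by positivity)
    have h1 : (1 : ℝ) ≤ L := by exact_mod_cast hL0
    have h2 : 2 ^ 11 * h ^ 2 * S = 3 * (2 ^ 11 * h ^ 2 * S') := by rw [hS']; ring
    rw [h2]
    linarith
  have hLdN : 3 * D ^ 4 * (2 * L + 1) ≤ m0 * D := by exact_mod_cast hLd
  have hLley : (L : ℝ) ≤ h * y := by
    have hD4 : (1 : ℝ) ≤ (D : ℝ) ^ 4 := one_le_pow₀ hD1
    have h1 : (L : ℝ) ≤ 3 * (D : ℝ) ^ 4 * (2 * L + 1) := by
      have h3 : (1 : ℝ) ≤ 3 * (D : ℝ) ^ 4 := by linarith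
      calc (L : ℝ) ≤ 2 * L + 1 := by linarith
        _ ≤ _ := le_mul_of_one_le_left (by positivity) h3
    have h2 : y ≤ h * y := le_mul_of_one_le_left hy0.le hh
    have h4 : (L : ℝ) ≤ d := by rw [hd]; exact h1.trans hLd
    linarith
  obtain ⟨r, hr⟩ : ∃ r : ℕ, r = T / L + 1 := ⟨_, rfl⟩
  have hr0 : 0 < r := by rw [hr]; exact Nat.succ_pos _
  have hTr : T < L * r := by
    rw [hr, Nat.mul_add, Nat.mul_one, Nat.mul_comm L]
    exact Nat.lt_div_mul_add hL0
  have hrL : (r : ℝ) * L ≤ 3 * (h * y) := by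
    have h1 : r * L ≤ T + L := by
      rw [hr, add_mul, one_mul]
      have := Nat.div_mul_le_self T L
      omega
    have h2 : (r : ℝ) * L ≤ T + L := by exact_mod_cast h1
    linarith
  -- bounds of the factors
  have e2 : (2 * ((T : ℝ) + 1)) ≤ Real.exp bu := by
    have h1 : 2 * ((T : ℝ) + 1) ≤ 6 * (h * y) := by
      have h2 : 1 ≤ h * y := one_le_mul_of_one_le_of_one_le hh hy1
      linarith
    have h2 : 6 * (h * y) ≤ y ^ 2 := by
      have h3 : 6 * h ≤ y := by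
        refine le_trans ?_ hhy
        exact mul_le_mul_of_nonneg_right (by norm_num) hh0.le
      calc 6 * (h * y) = (6 * h) * y := by ring
        _ ≤ y * y := mul_le_mul_of_nonneg_right h3 hy0.le
        _ = y ^ 2 := by ring
    have h3 : y ^ 2 = Real.exp (2 * Real.log y) := by
      rw [mul_comm, ← Real.rpow_def_of_pos hy0]
      norm_cast
    refine (h1.trans h2).trans ?_
    rw [h3]
    apply Real.exp_le_exp.2
    rw [hbu, le_div_iff₀ (by positivity)]
    have h4 := log_le_two_sqrt y hy0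
    have h5 : Real.sqrt y * Real.sqrt y = y := Real.mul_self_sqrt hy0.le
    have h6 : 256 * h ≤ Real.sqrt y := by
      apply Real.le_sqrt_of_sq_le
      refine le_trans ?_ hpy2
      apply pow_le_pow_left₀ (by positivity)
      refine le_trans ?_ hp24
      exact mul_le_mul_of_nonneg_right (by norm_num) hh0.le
    calc 2 * Real.log y * (64 * h) ≤ 2 * (2 * Real.sqrt y) * (64 * h) := by gcongr
      _ = Real.sqrt y * (256 * h) := by ring
      _ ≤ Real.sqrt y * Real.sqrt y := by gcongr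
      _ = y * 1 := by rw [h5, mul_one]
      _ ≤ y * lp := mul_le_mul_of_nonneg_left hlp1 hy0.le
  have e3 : (nV T (Fintype.card Q) : ℝ) ^ r * 2 ^ r ≤
      Real.exp (bu / 2) := by
    have h1 := card_le_exp' hVS
    have h2 : (2 : ℝ) ≤ Real.exp S' := by
      have := Real.add_one_le_exp S'
      linarith
    calc (nV T (Fintype.card Q) : ℝ) ^ r * 2 ^ r
        ≤ (Real.exp S') ^ r * (Real.exp S') ^ r := by gcongr
      _ = Real.exp (2 * (r * S')) := by
          rw [← Real.exp_nat_mul, ← Real.exp_add]; ring_nf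
      _ ≤ Real.exp (bu / 2) := by
          apply Real.exp_le_exp.2
          rw [hbu, div_div, le_div_iff₀ (by positivity)]
          have h3 : (r : ℝ) * (2 ^ 10 * h ^ 2 * S') ≤ 3 * (h * y) :=
            (mul_le_mul_of_nonneg_left hLge (Nat.cast_nonneg _)).trans hrL
          have h4 : h * (r * S' * (2 ^ 10 * h)) ≤ h * (3 * y) := by
            calc _ = (r : ℝ) * (2 ^ 10 * h ^ 2 * S') := by ring
              _ ≤ _ := h3
              _ = _ := by ring
          have h5 : r * S' * (2 ^ 10 * h) ≤ 3 * y := le_of_mul_le_mul_left h4 hh0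
          calc 2 * ((r : ℝ) * S') * (64 * h * 2) = (r * S' * (2 ^ 10 * h)) / 4 := by ring
            _ ≤ 3 * y / 4 := by linarith
            _ ≤ y * 1 := by linarith
            _ ≤ y * lp := mul_le_mul_of_nonneg_left hlp1 hy0.le
  have e4 : (T * ((T + 1) * (Fintype.card A * Fintype.card Γ)) + 1 : ℝ) ^ F ≤ Real.exp bu := by
    have hTy : (T : ℝ) ≤ y ^ 2 := by linarith
    have h1 := num_rec hG1 hy0 hNG hTy hA hG
    calc (T * ((T + 1) * (Fintype.card A * Fintype.card Γ)) + 1 : ℝ) ^ F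
        ≤ Real.exp (8 * G) ^ F := pow_le_pow_left₀ (by positivity) h1 F
      _ = Real.exp (F * (8 * G)) := by rw [← Real.exp_nat_mul]
      _ ≤ Real.exp bu := by
          apply Real.exp_le_exp.2
          rw [hbu, le_div_iff₀ (by positivity)]
          calc (F : ℝ) * (8 * G) * (64 * h) = 512 * h * G * F := by ring
            _ ≤ y * Real.log p := hF
            _ = y * lp := by rw [hlp]
  have hIc : (Fintype.card (Idx T F r Q A Γ) : ℝ) * 2 ^ r ≤
      Real.exp (5 / 2 * ((t * (m0 * D) * p ^ 2) * Real.log p / (64 * h))) := by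
    rw [← hy, ← hlp, ← hbu]
    calc (Fintype.card (Idx T F r Q A Γ) : ℝ) * 2 ^ r
        ≤ (2 * (T + 1) * ((nV T (Fintype.card Q) : ℝ) ^ r *
          (T * ((T + 1) * (Fintype.card A * Fintype.card Γ)) + 1 : ℝ) ^ F)) * 2 ^ r :=
          mul_le_mul_of_nonneg_right (card_Idx T F r) (by positivity)
      _ = (2 * ((T : ℝ) + 1)) * (((nV T (Fintype.card Q) : ℝ) ^ r * 2 ^ r) *
          (T * ((T + 1) * (Fintype.card A * Fintype.card Γ)) + 1 : ℝ) ^ F) := by ring
      _ ≤ Real.exp bu * (Real.exp (bu / 2) * Real.exp bu) := by gcongr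
      _ = Real.exp (5 / 2 * bu) := by
          rw [← Real.exp_add, ← Real.exp_add]
          ring_nf
  exact fam_num t m0 D p σ h (2 * L + 1) r T (Idx T F r Q A Γ) (fun i => Sf M T F i) ht hm0
    hSp hh hD hp hhD hLdN hT' hIc
    (fun i z hz => (hacc z).1 (sf_sound M T F hr0 i z hz))
    (fun z hz => sf_complete M T F L r hr0 hTr z ((hacc z).2 hz))

end Pool.Agent.ACS
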