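import Mathlib
import Pool.Agent.ACS.Num2
import Pool.Agent.ACS.Conv

/-!
# The lower bound for given parameters
-/

set_option autoImplicit false

namespace Pool.Agent.ACS

open Finset Equiv Pool.Agent.TS
open Pool.Agent.RAC (Simp Sparse edg ES)
open Pool.Agent.ACC (Pt inc card_lines)

private lemma bpm_card {m0 D p : ℕ} [NeZero D] [Fact p.Prime]
    (σ : ZMod D → Perm (Fin m0 × ZMod D))
    [DecidablePred fun x : ((Fin m0 × ZMod D) × Pt p) × ((Fin m0 × ZMod D) × Pt p) =>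
      ES σ inc x.1 x.2] :
    (Finset.univ.filter fun x : ((Fin m0 × ZMod D) × Pt p) × ((Fin m0 × ZMod D) × Pt p) =>
      ES σ inc x.1 x.2).card ≤ (m0 * D) * p ^ 2 * (D * p) := by
  classical
  have h1 : (Finset.univ.filter fun x : ((Fin m0 × ZMod D) × Pt p) × ((Fin m0 × ZMod D) × Pt p) =>
      ES σ inc x.1 x.2) ⊆
      (Finset.univ : Finset (((Fin m0 × ZMod D) × Pt p) × (ZMod D × ZMod p))).image fun x =>
        (x.1, (σ x.2.1 x.1.1, (x.2.2, x.1.2.2 - x.2.2 * x.1.2.1))) := by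
    rintro ⟨x, y⟩ hx
    obtain ⟨c, hc, h2⟩ := (Finset.mem_filter.1 hx).2
    simp only [inc] at hc h2
    rw [Finset.mem_image]
    refine ⟨(x, (c, y.2.1)), Finset.mem_univ _, ?_⟩
    simp only [h2]
    refine Prod.ext rfl (Prod.ext hc.symm (Prod.ext rfl ?_))
    simp
  refine (Finset.card_le_card h1).trans (Finset.card_image_le.trans (le_of_eq ?_))
  rw [Finset.card_univ]
  simp only [Fintype.card_prod, ZMod.card, Fintype.card_fin]
  ring

theorem bpm (t m0 D p : ℕ) [NeZero D] [Fact p.Prime] (s : ℕ) (ht : 0 < t) (hm0 : 0 < m0)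
    (hDt : D * p ≤ t) (hs : 6 * (t * (m0 * D) * p ^ 2) ≤ s) :
    ∃ (n : ℕ) (δ : Fin n → ℕ), 2 * n + ∑ v, δ v = 2 * s ∧
      ∀ (h S G : ℝ) (Fa : ℕ), 1 ≤ h → 1 ≤ G → 16 * h ^ 2 ≤ D → 2 ^ 24 * h ^ 6 ≤ (p : ℝ) →
        256 * h * D ≤ p → 3 * (D : ℝ) ^ 4 * (2 ^ 11 * h ^ 2 * S) ≤ m0 * D →
        Real.log (t * (m0 * D) * p ^ 2) ≤ G →
        512 * h * G * Fa ≤ (t * (m0 * D) * p ^ 2) * Real.log p →
      ∀ (Q A Γ Λ : Type) [Fintype Q] [Fintype A] [Fintype Γ] (M : Machine n Q A Γ Λ) (T : ℕ),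
        6 * Real.log (Fintype.card Q) + 15 * Real.log (t * (m0 * D) * p ^ 2) ≤ S →
        Real.log (Fintype.card A) ≤ G → Real.log (Fintype.card Γ) ≤ G →
        (∀ H : SimpleGraph (Fin n), (∀ v, (adjList H v).length = δ v) →
          (M.Accepts T Fa H ↔ H.CliqueFree 3)) →
        (t * (m0 * D) * p ^ 2 : ℝ) * Real.logb 2 h < T := by
  classical
  obtain ⟨σ, _, hσ⟩ := RAC.t_EXP (RAC.t_LIFT RAC.t_PERM) m0 D
  have hp0 : 0 < p := (Fact.out : p.Prime).pos
  have hD0 : 0 < D := Nat.pos_of_ne_zero (NeZero.ne D)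
  have hd : 0 < m0 * D := Nat.mul_pos hm0 hD0
  have hcU : Fintype.card (Pt p) = p ^ 2 := by rw [Fintype.card_prod, ZMod.card, sq]
  have hcB : Fintype.card (Fin m0 × ZMod D) = m0 * D := by
    rw [Fintype.card_prod, Fintype.card_fin, ZMod.card]
  obtain ⟨eU⟩ : Nonempty (Pt p ≃ Fin (p ^ 2)) := ⟨Fintype.equivFinOfCardEq hcU⟩
  obtain ⟨eB⟩ : Nonempty ((Fin m0 × ZMod D) ≃ Fin (m0 * D)) := ⟨Fintype.equivFinOfCardEq hcB⟩
  have : DecidableRel (ES σ (inc (p := p))) := Classical.decRel _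
  set w := p ^ 2 with hw
  set d := m0 * D with hdd
  have hw0 : 0 < w := by rw [hw]; positivity
  set cE := (Finset.univ.filter fun x :
    ((Fin m0 × ZMod D) × Pt p) × ((Fin m0 × ZMod D) × Pt p) => ES σ inc x.1 x.2).card with hcE
  have hcEle : cE ≤ t * d * w := by
    have h1 := bpm_card (p := p) σ
    calc cE ≤ (m0 * D) * p ^ 2 * (D * p) := h1
      _ = (D * p) * (d * w) := by rw [hw, hdd]; ring
      _ ≤ t * (d * w) := Nat.mul_le_mul_right _ hDt
      _ = t * d * w := by ring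
  set base := t * w + 2 * (d * w) + 2 * (t * d * w) + cE with hbase
  have hbase_le : base ≤ s := by
    refine le_trans ?_ hs
    have e1 : t * w ≤ t * d * w := by
      rw [mul_assoc t d w]
      exact Nat.mul_le_mul_left _ (Nat.le_mul_of_pos_left _ hd)
    have e2 : d * w ≤ t * d * w := by
      rw [mul_assoc t d w]
      exact Nat.le_mul_of_pos_left _ ht
    omega
  set pad := s - base with hpad
  refine ⟨t * w + (d * w + (d * w + pad)),
    fun v => dg (Equiv.refl (Fin t)) eB eU pad (ES σ inc)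
      ((enc (Equiv.refl (Fin t)) eB eU pad).symm v), ?_, ?_⟩
  · rw [(enc (Equiv.refl (Fin t)) eB eU pad).symm.sum_comp
      (fun x => dg (Equiv.refl (Fin t)) eB eU pad (ES σ inc) x),
      sum_dg, Fintype.card_fin, hcB, hcU, ← hcE]
    omega
  · intro h S G F hh hG h1 h2 h3 h4 h5 h6 Q A Γ Λ _ _ _ M T hQ hA hGG hM
    refine mach_num t m0 D p σ h S G F T Q A Γ Λ
      (toFM (Equiv.refl (Fin t)) eB eU (ES σ inc) M) ht hm0 hσ hh hG h1 h2 h3 h4 h5 h6 hQ hA hGG ?_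
    intro z
    rw [← accepts_iff, hM, cliqueFree_iff]
    intro v
    obtain ⟨x, rfl⟩ := (enc (Equiv.refl (Fin t)) eB eU pad).surjective v
    rw [adjList_graph, length_lst]
    simp

end Pool.Agent.ACS
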