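import Mathlib
import Pool.Agent.ACS.Bpm

/-!
# The choice of the parameters
-/

set_option autoImplicit false

namespace Pool.Agent.ACS

open Finset Pool.Agent.TS

private lemma bnd_log_pow {c s κ : ℕ} (hs : 1 ≤ s) (h : c ≤ s ^ κ) :
    Real.log c ≤ κ * Real.log s := by
  have hs1 : (1 : ℝ) ≤ s := by exact_mod_cast hs
  have hl : 0 ≤ Real.log s := Real.log_nonneg hs1
  rcases Nat.eq_zero_or_pos c with h0 | h0
  · rw [h0]
    simp only [Nat.cast_zero, Real.log_zero]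
    positivity
  · have h1 : (c : ℝ) ≤ (s : ℝ) ^ κ := by exact_mod_cast h
    have h2 := Real.log_le_log (by exact_mod_cast h0) h1
    rwa [Real.log_pow] at h2

private lemma bnd_large (e : ℝ) (he : 0 < e) : ∃ s₁ : ℕ, ∀ s : ℕ, s₁ ≤ s →
    3 ≤ s ∧ 16 ≤ (s : ℝ) ^ (e / 200) ∧ 3 * Real.log 2 ≤ e / 20 * Real.log s := by
  have h1 := ((tendsto_rpow_atTop (show (0 : ℝ) < e / 200 by positivity)).comp
    (tendsto_natCast_atTop_atTop (R := ℝ))).eventually_ge_atTop 16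
  have h2 := ((Real.tendsto_log_atTop).comp
    (tendsto_natCast_atTop_atTop (R := ℝ))).eventually_ge_atTop (3 * Real.log 2 / (e / 20))
  obtain ⟨s₁, hs₁⟩ := Filter.eventually_atTop.1 ((h1.and h2).and (Filter.eventually_ge_atTop 3))
  refine ⟨s₁, fun s hs => ?_⟩
  obtain ⟨⟨h3, h4⟩, h5⟩ := hs₁ s hs
  refine ⟨h5, h3, ?_⟩
  simp only [Function.comp_apply] at h4
  rw [div_le_iff₀ (by positivity)] at h4
  linarith

/-- The parameters attached to the size `s`. -/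
private lemma bnd_params (s : ℕ) (e : ℝ) (he0 : 0 < e) (he1 : e ≤ 1) (hs3 : 3 ≤ s)
    (hz16 : 16 ≤ (s : ℝ) ^ (e / 200)) (hlog : 3 * Real.log 2 ≤ e / 20 * Real.log s) :
    ∃ k p m0 : ℕ, 0 < k ∧ p.Prime ∧ 0 < m0 ∧
      6 * (k * p * (m0 * k) * p ^ 2) ≤ s ∧ s ≤ 12 * (k * p * (m0 * k) * p ^ 2) ∧
      e / 10 * Real.log s ≤ Real.log p ∧
      ∀ Z : ℝ, 1 ≤ Z → Z ≤ (s : ℝ) ^ (e / 200) →
        16 * Z ^ 2 ≤ k ∧ 2 ^ 24 * Z ^ 6 ≤ (p : ℝ) ∧ 256 * Z * k ≤ p ∧
        3 * (k : ℝ) ^ 4 * (2 ^ 11 * Z ^ 2 * (s : ℝ) ^ (1 - e)) ≤ m0 * k := by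
  have hsR : (3 : ℝ) ≤ s := by exact_mod_cast hs3
  have hs0 : (0 : ℝ) < s := by linarith
  have hs1 : (1 : ℝ) ≤ s := by linarith
  obtain ⟨z, hz⟩ : ∃ z : ℝ, z = (s : ℝ) ^ (e / 200) := ⟨_, rfl⟩
  rw [← hz] at hz16 ⊢
  have hz0 : 0 < z := by linarith
  have hz1 : 1 ≤ z := by linarith
  obtain ⟨x, hx⟩ : ∃ x : ℝ, x = z ^ 10 := ⟨_, rfl⟩
  have hx0 : 0 < x := by rw [hx]; positivity
  have hx20 : x ^ 20 = (s : ℝ) ^ e := by
    rw [hx, hz, ← pow_mul, ← Real.rpow_natCast, ← Real.rpow_mul hs0.le]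
    congr 1
    push_cast
    ring
  have hxs : x ^ 20 ≤ s := by
    rw [hx20]
    calc (s : ℝ) ^ e ≤ (s : ℝ) ^ (1 : ℝ) := Real.rpow_le_rpow_of_exponent_le hs1 he1
      _ = s := Real.rpow_one _
  have hlogx : Real.log x = e / 20 * Real.log s := by
    rw [hx, hz, Real.log_pow, Real.log_rpow hs0]
    push_cast
    ring
  have hxz : 2 ^ 36 * z ≤ x := by
    rw [hx]
    calc (2 : ℝ) ^ 36 * z = (16 ^ 9) * z := by norm_num
      _ ≤ z ^ 9 * z := by
          apply mul_le_mul_of_nonneg_right _ hz0.le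
          exact pow_le_pow_left₀ (by norm_num) hz16 9
      _ = z ^ 10 := by ring
  have hx36 : (2 : ℝ) ^ 36 ≤ x := by
    refine le_trans ?_ hxz
    linarith
  have hx1 : 1 ≤ x := le_trans (by norm_num) hx36
  -- k
  obtain ⟨k, hk⟩ : ∃ k : ℕ, k = ⌊x⌋₊ := ⟨_, rfl⟩
  have hkx : (k : ℝ) ≤ x := by rw [hk]; exact Nat.floor_le hx0.le
  have hxk1 : x < k + 1 := by rw [hk]; exact Nat.lt_floor_add_one x
  have hkpos : 0 < k := by
    rw [hk]
    exact Nat.floor_pos.2 hx1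
  have hkR : (1 : ℝ) ≤ k := by exact_mod_cast hkpos
  have hkR0 : (0 : ℝ) < k := by linarith
  have hx2k : x ≤ 2 * k := by linarith
  have hkz : 2 ^ 35 * z ≤ k := by linarith
  -- p
  obtain ⟨p, hp, hp1, hp2⟩ := Nat.exists_prime_lt_and_le_two_mul (k ^ 3) (by positivity)
  have hp0 : 0 < p := hp.pos
  have hpR0 : (0 : ℝ) < p := by exact_mod_cast hp0
  have hp1R : (k : ℝ) ^ 3 ≤ p := by exact_mod_cast hp1.le
  have hp2R : (p : ℝ) ≤ 2 * (k : ℝ) ^ 3 := by exact_mod_cast hp2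
  -- m0
  obtain ⟨W, hW⟩ : ∃ W, W = 6 * (k * p * k * p ^ 2) := ⟨_, rfl⟩
  have hW0 : 0 < W := by rw [hW]; positivity
  have hWR : (W : ℝ) = 6 * (k * p * k * (p : ℝ) ^ 2) := by rw [hW]; push_cast; ring
  have hWle : (W : ℝ) ≤ 48 * (k : ℝ) ^ 11 := by
    rw [hWR]
    calc 6 * ((k : ℝ) * p * k * (p : ℝ) ^ 2) = 6 * (k : ℝ) ^ 2 * (p : ℝ) ^ 3 := by ring
      _ ≤ 6 * (k : ℝ) ^ 2 * (2 * (k : ℝ) ^ 3) ^ 3 := by gcongr
      _ = 48 * (k : ℝ) ^ 11 := by ring
  have hWs : W ≤ s := by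
    have h1 : (W : ℝ) ≤ s := by
      refine hWle.trans (le_trans ?_ hxs)
      calc 48 * (k : ℝ) ^ 11 ≤ x * x ^ 11 := by
            apply mul_le_mul _ (pow_le_pow_left₀ hkR0.le hkx 11) (by positivity) hx0.le
            exact le_trans (by norm_num) hx36
        _ = x ^ 12 := by ring
        _ ≤ x ^ 20 := pow_le_pow_right₀ hx1 (by norm_num)
    exact_mod_cast h1
  obtain ⟨m0, hm0⟩ : ∃ m0, m0 = s / W := ⟨_, rfl⟩
  have hm01 : 0 < m0 := by
    rw [hm0]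
    exact Nat.div_pos hWs hW0
  have h1 := Nat.div_mul_le_self s W
  have h2 := Nat.lt_div_mul_add (a := s) hW0
  rw [← hm0] at h1 h2
  have h3 : W ≤ m0 * W := Nat.le_mul_of_pos_left _ hm01
  have hN1 : 6 * (k * p * (m0 * k) * p ^ 2) ≤ s := by
    calc 6 * (k * p * (m0 * k) * p ^ 2) = m0 * W := by rw [hW]; ring
      _ ≤ s := h1
  have hN2 : s ≤ 12 * (k * p * (m0 * k) * p ^ 2) := by
    calc s ≤ m0 * W + W := h2.le
      _ ≤ m0 * W + m0 * W := Nat.add_le_add_left h3 _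
      _ = 12 * (k * p * (m0 * k) * p ^ 2) := by rw [hW]; ring
  refine ⟨k, p, m0, hkpos, hp, hm01, hN1, hN2, ?_, ?_⟩
  · have h4 : Real.log ((k : ℝ) ^ 3) ≤ Real.log p := Real.log_le_log (by positivity) hp1R
    rw [Real.log_pow] at h4
    have h5 : Real.log x ≤ Real.log 2 + Real.log k := by
      rw [← Real.log_mul (by norm_num) hkR0.ne']
      exact Real.log_le_log hx0 hx2k
    push_cast at h4
    rw [hlogx] at h5
    linarith
  · intro Z hZ1 hZz
    have hZ0 : 0 < Z := by linarith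
    refine ⟨?_, ?_, ?_, ?_⟩
    · -- 16 Z ^ 2 ≤ k
      have h4 : 16 * Z ^ 2 ≤ x / 2 := by
        rw [hx]
        calc 16 * Z ^ 2 ≤ 16 * z ^ 2 := by gcongr
          _ = (16 * 1) * z ^ 2 := by ring
          _ ≤ (z ^ 8 / 2) * z ^ 2 := by
              apply mul_le_mul_of_nonneg_right _ (by positivity)
              have h5 : (16 : ℝ) ^ 8 ≤ z ^ 8 := pow_le_pow_left₀ (by norm_num) hz16 8
              norm_num at h5
              linarith
          _ = z ^ 10 / 2 := by ring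
      linarith
    · -- 2 ^ 24 Z ^ 6 ≤ p
      refine le_trans ?_ hp1R
      have h4 : (2 : ℝ) ^ 35 * Z ≤ k := by
        refine le_trans ?_ hkz
        exact mul_le_mul_of_nonneg_left hZz (by positivity)
      have h5 : Z ^ 5 ≤ x := by
        rw [hx]
        calc Z ^ 5 ≤ z ^ 5 := by gcongr
          _ ≤ z ^ 10 := pow_le_pow_right₀ hz1 (by norm_num)
      calc 2 ^ 24 * Z ^ 6 = (2 ^ 24 * Z) * Z ^ 5 := by ring
        _ ≤ (k : ℝ) * (2 * (k : ℝ)) := by
            apply mul_le_mul _ (h5.trans hx2k) (by positivity) hkR0.le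
            refine le_trans ?_ h4
            exact mul_le_mul_of_nonneg_right (by norm_num) hZ0.le
        _ = 2 * (k : ℝ) ^ 2 := by ring
        _ ≤ k * (k : ℝ) ^ 2 := by
            apply mul_le_mul_of_nonneg_right _ (by positivity)
            have h6 : (2 : ℝ) ≤ 2 ^ 35 * z := by linarith
            exact h6.trans hkz
        _ = (k : ℝ) ^ 3 := by ring
    · -- 256 Z k ≤ p
      refine le_trans ?_ hp1R
      have h4 : 256 * Z ≤ k := by
        refine le_trans ?_ hkz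
        calc 256 * Z ≤ 256 * z := by gcongr
          _ ≤ 2 ^ 35 * z := mul_le_mul_of_nonneg_right (by norm_num) hz0.le
      calc 256 * Z * k ≤ k * k := mul_le_mul_of_nonneg_right h4 hkR0.le
        _ = (k : ℝ) ^ 2 := by ring
        _ ≤ (k : ℝ) ^ 3 := pow_le_pow_right₀ hkR (by norm_num)
    · -- the cache
      obtain ⟨S, hS⟩ : ∃ S : ℝ, S = (s : ℝ) ^ (1 - e) := ⟨_, rfl⟩
      rw [← hS]
      have hS0 : 0 < S := by rw [hS]; exact Real.rpow_pos_of_pos hs0 _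
      have hSx : S * x ^ 20 = s := by
        rw [hS, hx20, ← Real.rpow_add hs0]
        simp
      have h4 : (s : ℝ) ≤ 12 * (k * p * (m0 * k) * (p : ℝ) ^ 2) := by exact_mod_cast hN2
      have h5 : (s : ℝ) ≤ (m0 * k) * (96 * (k : ℝ) ^ 10) := by
        refine h4.trans ?_
        calc 12 * ((k : ℝ) * p * (m0 * k) * (p : ℝ) ^ 2) =
              (m0 * k) * (12 * (k : ℝ) * (p : ℝ) ^ 3) := by ring
          _ ≤ (m0 * k) * (12 * (k : ℝ) * (2 * (k : ℝ) ^ 3) ^ 3) := by gcongr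
          _ = (m0 * k) * (96 * (k : ℝ) ^ 10) := by ring
      have h6 : (3 * (k : ℝ) ^ 4 * (2 ^ 11 * Z ^ 2 * S)) * (96 * (k : ℝ) ^ 10) ≤
          (m0 * k) * (96 * (k : ℝ) ^ 10) := by
        refine le_trans ?_ h5
        rw [← hSx]
        calc (3 * (k : ℝ) ^ 4 * (2 ^ 11 * Z ^ 2 * S)) * (96 * (k : ℝ) ^ 10)
            = S * ((3 * 2 ^ 11 * 96) * Z ^ 2 * (k : ℝ) ^ 14) := by ring
          _ ≤ S * (2 ^ 36 * z ^ 2 * x ^ 14) := by
              gcongr
              norm_num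
          _ = S * ((2 ^ 36 * z) * z * x ^ 14) := by ring
          _ ≤ S * (x * x * x ^ 14) := by
              have h7 : z ≤ x := by
                refine le_trans ?_ hxz
                exact le_mul_of_one_le_left hz0.le (by norm_num)
              gcongr
          _ = S * x ^ 16 := by ring
          _ ≤ S * x ^ 20 := by
              apply mul_le_mul_of_nonneg_left _ hS0.le
              exact pow_le_pow_right₀ hx1 (by norm_num)
      exact le_of_mul_le_mul_right h6 (by positivity)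

theorem bnd (κ : ℕ) (e : ℝ) (he0 : 0 < e) (he1 : e ≤ 1) :
    ∃ (c₁ η C₁ : ℝ) (s₁ : ℕ), 0 < c₁ ∧ 0 < η ∧ 0 < C₁ ∧
    ∀ s : ℕ, s₁ ≤ s → ∃ (n : ℕ) (δ : Fin n → ℕ), 2 * n + ∑ v, δ v = 2 * s ∧
      ∀ (Z : ℝ) (g F T : ℕ) (Q A Γ Λ : Type) [Fintype Q] [Fintype A] [Fintype Γ]
        (M : Machine n Q A Γ Λ), 1 ≤ Z → Z ≤ (s : ℝ) ^ η → 1 ≤ g → C₁ * Z * g * F ≤ s →
        6 * Real.log (Fintype.card Q) + 15 * Real.log s ≤ (s : ℝ) ^ (1 - e) →
        Fintype.card A ≤ s ^ κ → Fintype.card Γ ≤ s ^ (κ * g) →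
        (∀ H : SimpleGraph (Fin n), (∀ v, (adjList H v).length = δ v) →
          (M.Accepts T F H ↔ H.CliqueFree 3)) →
        c₁ * s * Real.log Z ≤ T := by
  obtain ⟨s₁, hs₁⟩ := bnd_large e he0
  have hκ : (0 : ℝ) ≤ κ := Nat.cast_nonneg _
  obtain ⟨C₁, hC₁⟩ : ∃ C₁ : ℝ, C₁ = 512 * 120 * ((κ : ℝ) + 1) / e := ⟨_, rfl⟩
  have hC₁0 : 0 < C₁ := by rw [hC₁]; positivity
  refine ⟨1 / 12, e / 200, C₁, s₁, by norm_num, by positivity, hC₁0, ?_⟩
  intro s hs
  obtain ⟨hs3, hz16, hlog⟩ := hs₁ s hs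
  obtain ⟨k, p, m0, hk0, hp, hm0, hN1, hN2, hlp, hpar⟩ := bnd_params s e he0 he1 hs3 hz16 hlog
  have : NeZero k := ⟨hk0.ne'⟩
  have : Fact p.Prime := ⟨hp⟩
  have hp0 : 0 < p := hp.pos
  obtain ⟨n, δ, hn, hmain⟩ := bpm (k * p) m0 k p s (Nat.mul_pos hk0 hp0) hm0 le_rfl hN1
  refine ⟨n, δ, hn, ?_⟩
  intro Z g F T Q A Γ Λ _ _ _ M hZ1 hZ hg hZF hQ hA hG hM
  have hsR : (3 : ℝ) ≤ s := by exact_mod_cast hs3
  have hs0 : (0 : ℝ) < s := by linarith
  have hs1 : (1 : ℝ) ≤ s := by linarith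
  have hs1N : 1 ≤ s := by omega
  have hgR : (1 : ℝ) ≤ g := by exact_mod_cast hg
  obtain ⟨l, hl⟩ : ∃ l : ℝ, l = Real.log s := ⟨_, rfl⟩
  have hl1 : 1 ≤ l := by
    rw [hl, Real.le_log_iff_exp_le (by linarith)]
    have := Real.exp_one_lt_d9
    linarith
  have hl0 : 0 < l := by linarith
  obtain ⟨h1, h2, h3, h4⟩ := hpar Z hZ1 hZ
  obtain ⟨N, hN⟩ : ∃ N : ℝ, N = (k * p : ℕ) * (m0 * k) * (p : ℝ) ^ 2 := ⟨_, rfl⟩
  have hN1R : 6 * N ≤ s := by
    rw [hN]
    exact_mod_cast hN1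
  have hN2R : (s : ℝ) ≤ 12 * N := by
    rw [hN]
    exact_mod_cast hN2
  have hN0 : 0 < N := by linarith
  have hNs : N ≤ s := by linarith
  have hG1 : 1 ≤ ((κ : ℝ) + 1) * g * l := by
    have h5 : (1 : ℝ) ≤ ((κ : ℝ) + 1) * g :=
      one_le_mul_of_one_le_of_one_le (by linarith) hgR
    exact one_le_mul_of_one_le_of_one_le h5 hl1
  have hlG : l ≤ ((κ : ℝ) + 1) * g * l := by
    have h5 : (1 : ℝ) ≤ ((κ : ℝ) + 1) * g :=
      one_le_mul_of_one_le_of_one_le (by linarith) hgR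
    exact le_mul_of_one_le_left hl0.le h5
  have hfin := hmain Z ((s : ℝ) ^ (1 - e)) (((κ : ℝ) + 1) * g * l) F hZ1
    hG1 h1 h2 h3 h4 (by
      rw [← hN]
      refine (Real.log_le_log hN0 hNs).trans ?_
      rw [← hl]
      exact hlG) (by
      rw [← hN]
      have h5 : C₁ * (Z * g * F) ≤ s := by
        refine le_trans (le_of_eq ?_) hZF
        ring
      have h6 : 512 * ((κ : ℝ) + 1) * (Z * g * F) ≤ s * (e / 120) := by
        have h7 : C₁ * (Z * g * F) * (e / 120) ≤ s * (e / 120) :=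
          mul_le_mul_of_nonneg_right h5 (by positivity)
        refine le_trans (le_of_eq ?_) h7
        rw [hC₁]
        field_simp
      calc 512 * Z * (((κ : ℝ) + 1) * g * l) * F = (512 * ((κ : ℝ) + 1) * (Z * g * F)) * l := by
            ring
        _ ≤ (s * (e / 120)) * l := mul_le_mul_of_nonneg_right h6 hl0.le
        _ ≤ (12 * N * (e / 120)) * l := by gcongr
        _ = N * (e / 10 * l) := by ring
        _ ≤ N * Real.log p := by
            apply mul_le_mul_of_nonneg_left _ hN0.le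
            rw [hl]
            exact hlp)
    Q A Γ Λ M T (by
      rw [← hN]
      refine le_trans ?_ hQ
      have h5 := Real.log_le_log hN0 hNs
      linarith) (by
      refine (bnd_log_pow hs1N hA).trans ?_
      rw [← hl]
      have h5 : (κ : ℝ) * l ≤ ((κ : ℝ) + 1) * l * g := by
        calc (κ : ℝ) * l ≤ (((κ : ℝ) + 1) * l) * 1 := by
              rw [mul_one]
              exact mul_le_mul_of_nonneg_right (by linarith) hl0.le
          _ ≤ (((κ : ℝ) + 1) * l) * g := mul_le_mul_of_nonneg_left hgR (by positivity)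
      linarith) (by
      refine (bnd_log_pow hs1N hG).trans ?_
      rw [← hl]
      push_cast
      have h5 : (0 : ℝ) ≤ g * l := by positivity
      linarith) hM
  rw [← hN] at hfin
  have hlZ : 0 ≤ Real.log Z := Real.log_nonneg hZ1
  have h8 : Real.log Z ≤ Real.logb 2 Z := by
    have h20 : 0 < Real.log 2 := Real.log_pos (by norm_num)
    have h21 : Real.log 2 ≤ 1 := by
      have := Real.log_two_lt_d9; linarith
    rw [Real.logb, le_div_iff₀ h20]
    exact mul_le_of_le_one_right hlZ h21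
  calc 1 / 12 * (s : ℝ) * Real.log Z ≤ 1 / 12 * (12 * N) * Real.logb 2 Z := by
        gcongr
    _ = N * Real.logb 2 Z := by ring
    _ ≤ T := hfin.le

end Pool.Agent.ACS
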