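import Mathlib
import Pool.Agent.ACS.Bnd

/-!
# The theorem on prices, for machines with a free stack
-/

set_option autoImplicit false

namespace Pool.Agent.ACS

open Finset Pool.Agent.TS

private lemma prc_log_pow {c s κ : ℕ} (hs : 1 ≤ s) (h : c ≤ s ^ κ) :
    Real.log c ≤ κ * Real.log s := by
  have hs1 : (1 : ℝ) ≤ s := by exact_mod_cast hs
  have hl : 0 ≤ Real.log s := Real.log_nonneg hs1
  rcases Nat.eq_zero_or_pos c with h0 | h0
  · rw [h0]
    simp only [Nat.cast_zero, Real.log_zero]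
    positivity
  · have h1 : (c : ℝ) ≤ (s : ℝ) ^ κ := by exact_mod_cast h
    have h2 := Real.log_le_log (by exact_mod_cast h0) h1
    rwa [Real.log_pow] at h2

/-- Logarithms are smaller than powers. -/
private lemma prc_large (K ε : ℝ) (hε : 0 < ε) : ∃ s₀ : ℕ, ∀ s : ℕ, s₀ ≤ s →
    1 + K * Real.log s ≤ (s : ℝ) ^ (ε / 2) := by
  have h1 := (isLittleO_log_rpow_atTop (show (0 : ℝ) < ε / 2 by positivity)).bound
    (show (0 : ℝ) < 1 / (2 * (|K| + 1)) by positivity)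
  have h2 := tendsto_natCast_atTop_atTop (R := ℝ) |>.eventually h1
  have h9 := ((tendsto_rpow_atTop (show (0 : ℝ) < ε / 2 by positivity)).comp
    (tendsto_natCast_atTop_atTop (R := ℝ))).eventually_ge_atTop 2
  obtain ⟨s₀, hs₀⟩ := Filter.eventually_atTop.1 (h2.and h9)
  refine ⟨max s₀ 1, fun s hs => ?_⟩
  obtain ⟨h3, h10⟩ := hs₀ s ((le_max_left _ _).trans hs)
  have h4 : (1 : ℝ) ≤ s := by exact_mod_cast (le_max_right _ _).trans hs
  have h5 : 0 ≤ Real.log s := Real.log_nonneg h4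
  have h6 : 0 ≤ (s : ℝ) ^ (ε / 2) := Real.rpow_nonneg (by linarith) _
  rw [Real.norm_of_nonneg h5, Real.norm_of_nonneg h6] at h3
  simp only [Function.comp_apply] at h10
  have h7 : (|K| + 1) * Real.log s ≤ (s : ℝ) ^ (ε / 2) / 2 := by
    calc (|K| + 1) * Real.log s ≤ (|K| + 1) * (1 / (2 * (|K| + 1)) * (s : ℝ) ^ (ε / 2)) :=
          mul_le_mul_of_nonneg_left h3 (by positivity)
      _ = (s : ℝ) ^ (ε / 2) / 2 := by field_simp
  have h8 : K * Real.log s ≤ (|K| + 1) * Real.log s := by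
    apply mul_le_mul_of_nonneg_right _ h5
    have := le_abs_self K
    linarith
  linarith

private lemma prc_sqrt {φ : ℝ} (h : 1 < φ) : Real.log φ ≤ 2 * Real.sqrt φ := by
  have h0 : (0 : ℝ) < φ := by linarith
  have h1 : 0 < Real.sqrt φ := Real.sqrt_pos.2 h0
  have h2 := Real.log_le_sub_one_of_pos h1
  rw [Real.log_sqrt h0.le] at h2
  linarith

theorem main_le (κ : ℕ) (ε : ℝ) (hε : 0 < ε) (hε1 : ε ≤ 1) :
    ∃ c : ℝ, 0 < c ∧ ∃ s₀ : ℕ, ∀ s : ℕ, s₀ ≤ s →
    ∃ (n : ℕ) (δ : Fin n → ℕ), 2 * n + ∑ v, δ v = 2 * s ∧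
      ∀ (Q A Γ Λ : Type) [Fintype Q] [Fintype A] [Fintype Γ] (M : Machine n Q A Γ Λ) (g : ℕ)
        (f : A → ℝ) (φ T : ℝ), 1 ≤ g → (Fintype.card Q : ℝ) ≤ 2 ^ ((s : ℝ) ^ (1 - ε)) →
        Fintype.card A ≤ s ^ κ → Fintype.card Γ ≤ s ^ (κ * g) → (∀ a, 0 ≤ f a) → 0 < φ →
        (Nat.card {a : A // f a < φ * g} : ℝ) * g ≤ (s : ℝ) ^ (1 - ε) →
        M.Recognises f T δ → c * s * min (Real.log s) (Real.log φ) ≤ T := by
  classical
  obtain ⟨c₁, η, C₁, s₁, hc₁, hη, hC₁, hbnd⟩ := bnd κ (ε / 2) (by positivity) (by linarith)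
  obtain ⟨s₂, hs₂⟩ := prc_large (6 * κ + 20) ε hε
  obtain ⟨c, hc⟩ : ∃ c : ℝ, c = min (c₁ * min η (1 / 2)) (1 / (2 * C₁)) := ⟨_, rfl⟩
  have hmη : 0 < min η (1 / 2 : ℝ) := lt_min hη (by norm_num)
  have hc0 : 0 < c := by rw [hc]; exact lt_min (by positivity) (by positivity)
  have hc1 : c ≤ c₁ * min η (1 / 2) := by rw [hc]; exact min_le_left _ _
  have hc2 : 2 * c * C₁ ≤ 1 := by
    have h1 : c ≤ 1 / (2 * C₁) := by rw [hc]; exact min_le_right _ _
    rw [le_div_iff₀ (by positivity)] at h1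
    linarith
  clear hc
  refine ⟨c, hc0, max (max s₁ s₂) 3, ?_⟩
  intro s hs
  have hss1 : s₁ ≤ s := ((le_max_left _ _).trans (le_max_left _ _)).trans hs
  have hss2 : s₂ ≤ s := ((le_max_right _ _).trans (le_max_left _ _)).trans hs
  have hs3 : 3 ≤ s := (le_max_right _ _).trans hs
  obtain ⟨n, δ, hn, hmain⟩ := hbnd s hss1
  refine ⟨n, δ, hn, ?_⟩
  intro Q A Γ Λ _ _ _ M g f φ T hg hQ hN hG hf hφ0 hcard hrec
  have hlarge := hs₂ s hss2
  have hs1 : 1 ≤ s := by omega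
  have hsR : (1 : ℝ) ≤ s := by exact_mod_cast hs1
  have hsR0 : (0 : ℝ) < s := by linarith
  obtain ⟨l, hl⟩ : ∃ l : ℝ, l = Real.log s := ⟨_, rfl⟩
  have hl1 : 1 ≤ l := by
    have h1 : (3 : ℝ) ≤ s := by exact_mod_cast hs3
    rw [hl, Real.le_log_iff_exp_le (by linarith)]
    have := Real.exp_one_lt_d9
    linarith
  have hl0 : 0 < l := by linarith
  have hgR : (1 : ℝ) ≤ g := by exact_mod_cast hg
  have hg0 : (0 : ℝ) < g := by linarith
  have hφg : 0 < φ * g := by positivity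
  -- the cheap registers
  obtain ⟨P, hP⟩ : ∃ P : A → Prop, P = fun a => f a < φ * g := ⟨_, rfl⟩
  have hfm : ∀ a, ¬ P a → φ * g ≤ f a := by
    intro a ha
    rw [hP] at ha
    exact not_lt.1 ha
  have hcP : (Fintype.card {a : A // P a} : ℝ) * g ≤ (s : ℝ) ^ (1 - ε) := by
    rw [← Nat.card_eq_fintype_card]
    rw [hP]
    exact hcard
  have hθ1 : 1 ≤ (s : ℝ) ^ η := Real.one_le_rpow hsR hη.le
  have hθ0 : 0 < (s : ℝ) ^ η := by linarith
  -- the number of states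
  have hpow1 : 1 ≤ (s : ℝ) ^ (1 - ε) := Real.one_le_rpow hsR (by linarith)
  have hpow0 : 0 < (s : ℝ) ^ (1 - ε) := Real.rpow_pos_of_pos hsR0 _
  have hQ1 : Real.log (Fintype.card (Q × ({a : A // P a} → Γ))) ≤
      (s : ℝ) ^ (1 - ε) * (1 + κ * l) := by
    rcases Nat.eq_zero_or_pos (Fintype.card (Q × ({a : A // P a} → Γ))) with h0 | h0
    · rw [h0]
      simp only [Nat.cast_zero, Real.log_zero]
      positivity
    · rw [Fintype.card_prod, Fintype.card_fun] at h0 ⊢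
      have hq0 : 0 < Fintype.card Q := Nat.pos_of_mul_pos_right h0
      have hp0 : 0 < Fintype.card Γ ^ Fintype.card {a : A // P a} := Nat.pos_of_mul_pos_left h0
      have hq0R : (0 : ℝ) < Fintype.card Q := by exact_mod_cast hq0
      push_cast
      rw [Real.log_mul hq0R.ne' (by exact_mod_cast hp0.ne'), Real.log_pow]
      have hlQ : Real.log (Fintype.card Q) ≤ (s : ℝ) ^ (1 - ε) := by
        have h1 := Real.log_le_log hq0R hQ
        rw [Real.log_rpow (by norm_num)] at h1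
        have h2 : Real.log 2 ≤ 1 := by
          have := Real.log_two_lt_d9
          linarith
        calc Real.log (Fintype.card Q) ≤ (s : ℝ) ^ (1 - ε) * Real.log 2 := h1
          _ ≤ (s : ℝ) ^ (1 - ε) * 1 := mul_le_mul_of_nonneg_left h2 hpow0.le
          _ = _ := mul_one _
      have hlG : Real.log (Fintype.card Γ) ≤ (κ * g : ℕ) * l := by
        rw [hl]
        exact prc_log_pow hs1 hG
      push_cast at hlG
      have h3 : (Fintype.card {a : A // P a} : ℝ) * Real.log (Fintype.card Γ) ≤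
          (s : ℝ) ^ (1 - ε) * (κ * l) := by
        calc (Fintype.card {a : A // P a} : ℝ) * Real.log (Fintype.card Γ)
            ≤ (Fintype.card {a : A // P a} : ℝ) * (κ * g * l) :=
              mul_le_mul_of_nonneg_left hlG (Nat.cast_nonneg _)
          _ = ((Fintype.card {a : A // P a} : ℝ) * g) * (κ * l) := by ring
          _ ≤ (s : ℝ) ^ (1 - ε) * (κ * l) := mul_le_mul_of_nonneg_right hcP (by positivity)
      calc Real.log (Fintype.card Q) + (Fintype.card {a : A // P a} : ℝ) *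
            Real.log (Fintype.card Γ)
          ≤ (s : ℝ) ^ (1 - ε) + (s : ℝ) ^ (1 - ε) * (κ * l) := add_le_add hlQ h3
        _ = (s : ℝ) ^ (1 - ε) * (1 + κ * l) := by ring
  have hQ' : 6 * Real.log (Fintype.card (Q × ({a : A // P a} → Γ))) + 15 * Real.log s ≤
      (s : ℝ) ^ (1 - ε / 2) := by
    have h4 : (s : ℝ) ^ (1 - ε / 2) = (s : ℝ) ^ (1 - ε) * (s : ℝ) ^ (ε / 2) := by
      rw [← Real.rpow_add hsR0]
      ring_nf
    have h5 : 15 * l ≤ (s : ℝ) ^ (1 - ε) * (15 * l) :=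
      le_mul_of_one_le_left (by positivity) hpow1
    rw [h4, ← hl]
    calc 6 * Real.log (Fintype.card (Q × ({a : A // P a} → Γ))) + 15 * l
        ≤ 6 * ((s : ℝ) ^ (1 - ε) * (1 + κ * l)) + (s : ℝ) ^ (1 - ε) * (15 * l) := by
          linarith
      _ = (s : ℝ) ^ (1 - ε) * (6 + (6 * κ + 15) * l) := by ring
      _ ≤ (s : ℝ) ^ (1 - ε) * (1 + (6 * κ + 20) * l) := by
          apply mul_le_mul_of_nonneg_left _ hpow0.le
          linarith
      _ ≤ (s : ℝ) ^ (1 - ε) * (s : ℝ) ^ (ε / 2) :=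
          mul_le_mul_of_nonneg_left (by rw [hl]; exact hlarge) hpow0.le
  have hcomp : ∀ G : SimpleGraph (Fin n), (∀ v, (adjList G v).length = δ v) → G.CliqueFree 3 →
      ∃ t q p s c w, M.IsComputation G t q p s c w ∧ p t ∈ M.acc ∧ M.cost f t p w ≤ T :=
    fun G hG hfree => (hrec G hG).1 hfree
  have hsound : ∀ G : SimpleGraph (Fin n), (∀ v, (adjList G v).length = δ v) →
      (∃ t q p s c w, M.IsComputation G t q p s c w ∧ p t ∈ M.acc) → G.CliqueFree 3 := by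
    intro G hG hex
    by_contra hcon
    exact (hrec G hG).2 hcon hex
  -- the core
  have hcore : ∀ (F : ℕ) (Z : ℝ), 1 ≤ Z → Z ≤ (s : ℝ) ^ η → C₁ * Z * g * F ≤ s →
      (∀ G : SimpleGraph (Fin n), (∀ v, (adjList G v).length = δ v) → G.CliqueFree 3 →
        (sim P M).Accepts ⌊T⌋₊ F G) → c₁ * s * Real.log Z ≤ ⌊T⌋₊ := by
    intro F Z hZ1 hZθ hF hacc
    refine hmain Z g F ⌊T⌋₊ (Q × ({a : A // P a} → Γ)) A Γ Λ (sim P M) hZ1 hZθ hg hF hQ' hN hG ?_
    intro G hGδ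
    constructor
    · rintro ⟨t, x, y, st, c', v, _, h2, h3, _⟩
      exact hsound G hGδ (sim_sound P M G t x y st c' v h2 h3)
    · exact hacc G hGδ
  -- T is not negative
  have hT0 : 0 ≤ T := by
    by_contra hcon
    push Not at hcon
    have h1 := hcore 0 ((s : ℝ) ^ η) hθ1 le_rfl (by
        simp only [Nat.cast_zero, mul_zero]
        positivity) (by
        intro G hGδ hfree
        obtain ⟨t, q, p, st, c, w, _, _, h2⟩ := hcomp G hGδ hfree
        have h3 := cost_nonneg M f hf t p w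
        have h4 : (0 : ℝ) ≤ t := Nat.cast_nonneg _
        linarith)
    rw [Real.log_rpow hsR0, ← hl, Nat.floor_of_nonpos hcon.le] at h1
    simp only [Nat.cast_zero] at h1
    have h2 : 0 < c₁ * (s : ℝ) * (η * l) := by positivity
    linarith
  rw [← hl]
  by_contra hcon
  push Not at hcon
  obtain ⟨μ, hμ⟩ : ∃ μ : ℝ, μ = min l (Real.log φ) := ⟨_, rfl⟩
  rw [← hμ] at hcon
  have hμ0 : 0 < μ := by
    by_contra h1
    push Not at h1
    have h2 : c * s * μ ≤ 0 := mul_nonpos_of_nonneg_of_nonpos (by positivity) h1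
    linarith
  have hμl : μ ≤ l := by rw [hμ]; exact min_le_left _ _
  have hμφ : μ ≤ Real.log φ := by rw [hμ]; exact min_le_right _ _
  have hlφ0 : 0 < Real.log φ := lt_of_lt_of_le hμ0 hμφ
  have hφ1 : 1 < φ := by
    by_contra h1
    push Not at h1
    have := Real.log_nonpos hφ0.le h1
    linarith
  obtain ⟨ψ, hψ⟩ : ∃ ψ : ℝ, ψ = Real.sqrt φ := ⟨_, rfl⟩
  have hψφ : ψ * ψ = φ := by rw [hψ]; exact Real.mul_self_sqrt hφ0.le
  have hψ1 : 1 ≤ ψ := by
    rw [hψ]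
    exact Real.one_le_sqrt.2 hφ1.le
  have hψ0 : 0 < ψ := by linarith
  have hlogψ : Real.log ψ = Real.log φ / 2 := by rw [hψ, Real.log_sqrt hφ0.le]
  have hlogφψ : Real.log φ ≤ 2 * ψ := by
    rw [hψ]
    exact prc_sqrt hφ1
  -- the number of far accesses
  obtain ⟨F, hF⟩ : ∃ F : ℕ, F = ⌊T / (φ * g)⌋₊ := ⟨_, rfl⟩
  have hFle : (g : ℝ) * F ≤ 2 * c * s / ψ := by
    have h1 : (F : ℝ) ≤ T / (φ * g) := by rw [hF]; exact Nat.floor_le (by positivity)
    rw [le_div_iff₀ hψ0]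
    have h2 : T ≤ c * s * (2 * ψ) := by
      refine hcon.le.trans ?_
      exact mul_le_mul_of_nonneg_left (hμφ.trans hlogφψ) (by positivity)
    rw [le_div_iff₀ hφg] at h1
    have h3 : ((g : ℝ) * F * ψ) * ψ ≤ (2 * c * s) * ψ := by
      calc ((g : ℝ) * F * ψ) * ψ = F * ((ψ * ψ) * g) := by ring
        _ = F * (φ * g) := by rw [hψφ]
        _ ≤ T := h1
        _ ≤ c * s * (2 * ψ) := h2
        _ = (2 * c * s) * ψ := by ring
    exact le_of_mul_le_mul_right h3 hψ0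
  have hZ := hcore F (min ((s : ℝ) ^ η) ψ) (le_min hθ1 hψ1) (min_le_left _ _) (by
      have hZ0 : 0 < min ((s : ℝ) ^ η) ψ := lt_min hθ0 hψ0
      calc C₁ * min ((s : ℝ) ^ η) ψ * g * F = (C₁ * min ((s : ℝ) ^ η) ψ) * (g * F) := by ring
        _ ≤ (C₁ * min ((s : ℝ) ^ η) ψ) * (2 * c * s / ψ) :=
            mul_le_mul_of_nonneg_left hFle (by positivity)
        _ ≤ (C₁ * ψ) * (2 * c * s / ψ) := by
            apply mul_le_mul_of_nonneg_right _ (by positivity)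
            exact mul_le_mul_of_nonneg_left (min_le_right _ _) hC₁.le
        _ = (2 * c * C₁) * s := by field_simp
        _ ≤ 1 * s := mul_le_mul_of_nonneg_right hc2 (by positivity)
        _ = s := one_mul _) (by
      intro G hGδ hfree
      obtain ⟨t, q, p, st, c', w, h1, h2, h3⟩ := hcomp G hGδ hfree
      obtain ⟨h4, h5⟩ := sim_complete P M G t q p st c' w h1 h2
      refine ⟨t, _, _, _, _, _, ?_, h4, h5, ?_⟩
      · exact Nat.le_floor ((cost_nonneg M f hf t p w).trans h3)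
      · rw [hF]
        exact sim_far P M f hf (φ * g) hφg hfm t p c' w T h3)
  have hlogZ : min η (1 / 2) * μ ≤ Real.log (min ((s : ℝ) ^ η) ψ) := by
    rcases le_total ((s : ℝ) ^ η) ψ with h | h
    · rw [min_eq_left h, Real.log_rpow hsR0, ← hl]
      exact mul_le_mul (min_le_left _ _) hμl hμ0.le hη.le
    · rw [min_eq_right h, hlogψ]
      calc min η (1 / 2) * μ ≤ 1 / 2 * μ := mul_le_mul_of_nonneg_right (min_le_right _ _) hμ0.le
        _ ≤ 1 / 2 * Real.log φ := mul_le_mul_of_nonneg_left hμφ (by norm_num)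
        _ = Real.log φ / 2 := by ring
  have hfl : ((⌊T⌋₊ : ℕ) : ℝ) ≤ T := Nat.floor_le hT0
  have h1 : c₁ * (s : ℝ) * (min η (1 / 2) * μ) ≤ T := by
    refine le_trans ?_ (hZ.trans hfl)
    exact mul_le_mul_of_nonneg_left hlogZ (by positivity)
  have h2 : c * s * μ ≤ c₁ * (s : ℝ) * (min η (1 / 2) * μ) := by
    calc c * s * μ = c * (s * μ) := by ring
      _ ≤ (c₁ * min η (1 / 2)) * (s * μ) := mul_le_mul_of_nonneg_right hc1 (by positivity)
      _ = _ := by ring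
  linarith



/-- The main theorem. -/
theorem main_bound (κ : ℕ) (ε : ℝ) (hε : 0 < ε) : ∃ c : ℝ, 0 < c ∧ ∃ s₀ : ℕ, ∀ s : ℕ, s₀ ≤ s →
    ∃ (n : ℕ) (δ : Fin n → ℕ), 2 * n + ∑ v, δ v = 2 * s ∧
      ∀ (Q A Γ Λ : Type) [Fintype Q] [Fintype A] [Fintype Γ] (M : Machine n Q A Γ Λ) (g : ℕ)
        (f : A → ℝ) (φ T : ℝ), 1 ≤ g → (Fintype.card Q : ℝ) ≤ 2 ^ ((s : ℝ) ^ (1 - ε)) →
        Fintype.card A ≤ s ^ κ → Fintype.card Γ ≤ s ^ (κ * g) → (∀ a, 0 ≤ f a) → 0 < φ →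
        (Nat.card {a : A // f a < φ * g} : ℝ) * g ≤ (s : ℝ) ^ (1 - ε) →
        M.Recognises f T δ → c * s * min (Real.log s) (Real.log φ) ≤ T := by
  obtain ⟨c, hc, s₀, h⟩ := main_le κ (min ε 1) (lt_min hε one_pos) (min_le_right _ _)
  refine ⟨c, hc, max s₀ 1, ?_⟩
  intro s hs
  have hs1 : (1 : ℝ) ≤ s := by exact_mod_cast (le_max_right _ _).trans hs
  have hpow : (s : ℝ) ^ (1 - ε) ≤ (s : ℝ) ^ (1 - min ε 1) :=
    Real.rpow_le_rpow_of_exponent_le hs1 (by have := min_le_left ε 1; linarith)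
  obtain ⟨n, δ, hn, hm⟩ := h s ((le_max_left _ _).trans hs)
  refine ⟨n, δ, hn, ?_⟩
  intro Q A Γ Λ _ _ _ M g f φ T hg hQ hA hG hf hφ hcard hrec
  refine hm Q A Γ Λ M g f φ T hg (hQ.trans ?_) hA hG hf hφ (hcard.trans hpow) hrec
  exact Real.rpow_le_rpow_of_exponent_le (by norm_num) hpow

end Pool.Agent.ACS
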